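import Mathlib

/-! # AQE (MP_892e4c_nt): few pairs of different signs on short arcs, so a step function (helper1) -/

set_option autoImplicit false

namespace Pool.Agent.AQE

open Finset

open Classical in
/-- the sum of the signs over the points which lie in the same arc as `t` -/
noncomputable def arcS {α : Type*} (P : Finset α) (u : α → ℝ) (g : α → ℤ) (J : Finset ℝ)
    (t : ℝ) : ℝ :=
  ∑ m ∈ P, if (∀ j ∈ J, (j ≤ u m ↔ j ≤ Int.fract t)) then (g m : ℝ) else 0

/-- the sign of the majority -/
noncomputable def arcF {α : Type*} (P : Finset α) (u : α → ℝ) (g : α → ℤ) (J : Finset ℝ)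
    (t : ℝ) : ℝ := if 0 ≤ arcS P u g J t then 1 else -1

variable {α : Type*} (P : Finset α) (u : α → ℝ) (g : α → ℤ) (J : Finset ℝ)

theorem arcS_meas : Measurable (arcS P u g J) := by
  classical
  unfold arcS
  apply Finset.measurable_fun_sum
  intro m hm
  apply Measurable.ite _ measurable_const measurable_const
  have : {t : ℝ | ∀ j ∈ J, (j ≤ u m ↔ j ≤ Int.fract t)} =
      ⋂ j ∈ J, {t : ℝ | (j ≤ u m ↔ j ≤ Int.fract t)} := by
    ext t; simp
  rw [this]
  apply Finset.measurableSet_biInter
  intro j hj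
  by_cases h : j ≤ u m
  · simp only [h, true_iff]
    exact measurableSet_le measurable_const measurable_fract
  · simp only [h, false_iff, not_le]
    exact measurableSet_lt measurable_fract measurable_const

theorem arcF_meas : Measurable (arcF P u g J) := by
  unfold arcF
  exact Measurable.ite (measurableSet_le measurable_const (arcS_meas P u g J))
    measurable_const measurable_const

theorem arcF_per (t : ℝ) : arcF P u g J (t + 1) = arcF P u g J t := by
  unfold arcF arcS
  rw [Int.fract_add_one]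

theorem arcF_pm (t : ℝ) : arcF P u g J t = 1 ∨ arcF P u g J t = -1 := by
  unfold arcF; split_ifs <;> simp

theorem arcF_jump (h0 : (0 : ℝ) ∈ J) {s t : ℝ} (hst : s ≤ t)
    (h : ∀ j ∈ J, ∀ n : ℤ, ¬ (s < j + n ∧ j + n ≤ t)) :
    arcF P u g J s = arcF P u g J t := by
  have hfl : ⌊s⌋ = ⌊t⌋ := by
    have h1 : ⌊s⌋ ≤ ⌊t⌋ := Int.floor_le_floor hst
    by_contra hne
    have h2 : ⌊s⌋ < ⌊t⌋ := lt_of_le_of_ne h1 hne
    apply h 0 h0 ⌊t⌋
    constructor
    · have : (⌊s⌋ : ℝ) + 1 ≤ ⌊t⌋ := by exact_mod_cast h2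
      have h3 := Int.lt_floor_add_one s
      linarith
    · have := Int.floor_le t
      linarith
  have hkey : ∀ j ∈ J, (j ≤ Int.fract s ↔ j ≤ Int.fract t) := by
    intro j hj
    have hs : Int.fract s = s - ⌊s⌋ := rfl
    have ht : Int.fract t = t - ⌊s⌋ := by rw [hfl]; rfl
    rw [hs, ht]
    constructor
    · intro h1; linarith
    · intro h1
      by_contra h2
      push Not at h2
      exact h j hj ⌊s⌋ ⟨by linarith, by linarith⟩
  have : arcS P u g J s = arcS P u g J t := by
    classical
    unfold arcS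
    apply Finset.sum_congr rfl
    intro m hm
    have : (∀ j ∈ J, (j ≤ u m ↔ j ≤ Int.fract s)) ↔ (∀ j ∈ J, (j ≤ u m ↔ j ≤ Int.fract t)) := by
      constructor
      · intro h1 j hj; rw [h1 j hj, hkey j hj]
      · intro h1 j hj; rw [h1 j hj, hkey j hj]
    by_cases hc : (∀ j ∈ J, (j ≤ u m ↔ j ≤ Int.fract s))
    · rw [if_pos hc, if_pos (this.1 hc)]
    · rw [if_neg hc, if_neg (fun h => hc (this.2 h))]
  unfold arcF
  rw [this]

open Classical in
/-- the pairs of different signs in the same arc -/
noncomputable def arcP : Finset (α × α) := (P ×ˢ P).filter (fun z =>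
  g z.1 = 1 ∧ g z.2 = -1 ∧ ∀ j ∈ J, (j ≤ u z.1 ↔ j ≤ u z.2))

open Classical in
theorem arcF_good (hu : ∀ m ∈ P, 0 ≤ u m ∧ u m < 1) (hg : ∀ m ∈ P, g m = 1 ∨ g m = -1) :
    (P.filter (fun m => arcF P u g J (u m) ≠ g m)).card ≤ (arcP P u g J).card := by
  -- partition by the arc
  set A : α → Finset ℝ := fun m => J.filter (fun j => j ≤ u m) with hA
  have hiff : ∀ m m' : α, A m = A m' ↔ ∀ j ∈ J, (j ≤ u m ↔ j ≤ u m') := by
    intro m m'
    simp only [hA, Finset.ext_iff, Finset.mem_filter]
    constructor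
    · intro h j hj
      have := h j
      simpa [hj] using this
    · intro h j
      by_cases hj : j ∈ J
      · simp [hj, h j hj]
      · simp [hj]
  have hfr : ∀ m ∈ P, Int.fract (u m) = u m := fun m hm =>
    Int.fract_eq_self.2 ⟨(hu m hm).1, (hu m hm).2⟩
  set I := P.image A with hI
  have h1 : (P.filter (fun m => arcF P u g J (u m) ≠ g m)).card =
      ∑ a ∈ I, ((P.filter (fun m => arcF P u g J (u m) ≠ g m)).filter (fun m => A m = a)).card := by
    apply Finset.card_eq_sum_card_fiberwise
    intro m hm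
    have := (Finset.mem_filter.1 hm).1
    exact Finset.mem_coe.2 (Finset.mem_image_of_mem _ this)
  have h2 : (arcP P u g J).card =
      ∑ a ∈ I, ((arcP P u g J).filter (fun z => A z.1 = a)).card := by
    apply Finset.card_eq_sum_card_fiberwise
    intro z hz
    have := (Finset.mem_product.1 (Finset.mem_filter.1 hz).1).1
    exact Finset.mem_coe.2 (Finset.mem_image_of_mem _ this)
  rw [h1, h2]
  apply Finset.sum_le_sum
  intro a ha
  set Pa := P.filter (fun m => A m = a) with hPa
  set Pp := Pa.filter (fun m => g m = 1) with hPp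
  set Pn := Pa.filter (fun m => g m = -1) with hPn
  have hprod : ((arcP P u g J).filter (fun z => A z.1 = a)) = Pp ×ˢ Pn := by
    ext z
    simp only [arcP, hPp, hPn, hPa, Finset.mem_filter, Finset.mem_product]
    constructor
    · rintro ⟨⟨⟨z1, z2⟩, g1, g2, h3⟩, h4⟩
      exact ⟨⟨⟨z1, h4⟩, g1⟩, ⟨⟨z2, by rw [← h4]; exact ((hiff z.1 z.2).2 h3).symm⟩, g2⟩⟩
    · rintro ⟨⟨⟨z1, h4⟩, g1⟩, ⟨⟨z2, h5⟩, g2⟩⟩
      exact ⟨⟨⟨z1, z2⟩, g1, g2, (hiff z.1 z.2).1 (by rw [h4, h5])⟩, h4⟩
  rw [hprod, Finset.card_product]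
  -- the sum of the signs on the arc
  have hS : ∀ m ∈ P, A m = a → arcS P u g J (u m) = (Pp.card : ℝ) - Pn.card := by
    intro m hm hma
    unfold arcS
    have e1 : ∑ m' ∈ P, (if (∀ j ∈ J, (j ≤ u m' ↔ j ≤ Int.fract (u m))) then (g m' : ℝ) else 0) =
        ∑ m' ∈ Pa, (g m' : ℝ) := by
      rw [hPa, Finset.sum_filter]
      apply Finset.sum_congr rfl
      intro m' hm'
      rw [hfr m hm]
      by_cases h : A m' = a
      · rw [if_pos h, if_pos ((hiff m' m).1 (by rw [h, hma]))]
      · rw [if_neg h, if_neg]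
        intro hc
        exact h (((hiff m' m).2 hc).trans hma)
    rw [e1]
    have e2 : ∀ m' ∈ Pa, (g m' : ℝ) = (if g m' = 1 then (1:ℝ) else 0) -
        (if g m' = -1 then (1:ℝ) else 0) := by
      intro m' hm'
      have := hg m' (Finset.mem_filter.1 hm').1
      rcases this with h | h
      · rw [h]; norm_num
      · rw [h]; norm_num
    rw [Finset.sum_congr rfl e2, Finset.sum_sub_distrib, hPp, hPn]
    simp only [Finset.sum_boole]
  -- the exceptional elements of the arc
  by_cases hmaj : (Pn.card : ℝ) ≤ Pp.card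
  · have hsub : ((P.filter (fun m => arcF P u g J (u m) ≠ g m)).filter (fun m => A m = a)) ⊆
        Pn := by
      intro m hm
      simp only [Finset.mem_filter] at hm
      obtain ⟨⟨hmP, hne⟩, hma⟩ := hm
      have hF : arcF P u g J (u m) = 1 := by
        unfold arcF
        rw [hS m hmP hma, if_pos (by linarith)]
      rw [hF] at hne
      simp only [hPn, hPa, Finset.mem_filter]
      refine ⟨⟨hmP, hma⟩, ?_⟩
      rcases hg m hmP with h | h
      · exfalso; apply hne; rw [h]; norm_num
      · exact h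
    refine le_trans (Finset.card_le_card hsub) ?_
    rcases Nat.eq_zero_or_pos Pn.card with h | h
    · rw [h]; simp
    · have hp : 1 ≤ Pp.card := by
        have h3 : Pn.card ≤ Pp.card := by exact_mod_cast hmaj
        omega
      nlinarith
  · push Not at hmaj
    have hsub : ((P.filter (fun m => arcF P u g J (u m) ≠ g m)).filter (fun m => A m = a)) ⊆
        Pp := by
      intro m hm
      simp only [Finset.mem_filter] at hm
      obtain ⟨⟨hmP, hne⟩, hma⟩ := hm
      have hF : arcF P u g J (u m) = -1 := by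
        unfold arcF
        rw [hS m hmP hma, if_neg (by push Not; linarith)]
      rw [hF] at hne
      simp only [hPp, hPa, Finset.mem_filter]
      refine ⟨⟨hmP, hma⟩, ?_⟩
      rcases hg m hmP with h | h
      · exact h
      · exfalso; apply hne; rw [h]; norm_num
    refine le_trans (Finset.card_le_card hsub) ?_
    rcases Nat.eq_zero_or_pos Pp.card with h | h
    · rw [h]; simp
    · have hp : 1 ≤ Pn.card := by
        have h3 : Pp.card < Pn.card := by exact_mod_cast hmaj
        omega
      nlinarith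

end Pool.Agent.AQE
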