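import Pool.Agent.Lib_helper1.AQE.A
import Pool.Agent.Lib_helper39.MQX.SBC

/-! # AQE (MP_892e4c_nt): the determinant on a short arc (helper1) -/

set_option autoImplicit false

namespace Pool.Agent.AQE

open Finset Pool.Agent.MQ

variable {b c : ℤ} (S : Sys b c)

/-- the ends of the cones -/
noncomputable def ends : Finset ℝ := by
  classical
  exact (Finset.range S.r).image (fun i => S.u (S.e i))

theorem ends_zero : (0 : ℝ) ∈ ends S := by
  classical
  unfold ends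
  rw [Finset.mem_image]
  exact ⟨0, Finset.mem_range.2 S.r_pos, (u_ends_pr S).1⟩

theorem ends_card : (ends S).card ≤ S.r := by
  classical
  unfold ends
  exact le_trans Finset.card_image_le (by rw [Finset.card_range])

theorem same_cone {J : Finset ℝ} (hJ : ends S ⊆ J) {v w : El} (hv : S.wd v) (hw : S.wd w)
    (h : ∀ j ∈ J, (j ≤ S.u v ↔ j ≤ S.u w)) : ∃ i s t s' t' : ℕ, i < S.r ∧ 1 ≤ s ∧ 1 ≤ s' ∧
      v = cn S.e i s t ∧ w = cn S.e i s' t' := by
  classical
  obtain ⟨i, s, t, hi, hs, rfl⟩ := (S.e_wd v).1 hv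
  obtain ⟨i', s', t', hi', hs', rfl⟩ := (S.e_wd w).1 hw
  obtain ⟨M, hM, hM'⟩ := sbc_bound S
  have key : ∀ {i s t i' s' t' : ℕ}, i < S.r → i' < S.r → 1 ≤ s → 1 ≤ s' → i < i' →
      ¬ (∀ j ∈ J, (j ≤ S.u (cn S.e i s t) ↔ j ≤ S.u (cn S.e i' s' t'))) := by
    intro i s t i' s' t' hi hi' hs hs' hlt hc
    have hmem : S.u (S.e i') ∈ J := hJ (by
      unfold ends
      exact Finset.mem_image.2 ⟨i', Finset.mem_range.2 hi', rfl⟩)
    have h1 := sbc_low S (i := i') (s := s') (t := t') hi' (by omega)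
    have h2 := (hc _ hmem).2 h1
    have hwd : S.wd (cn S.e i s t) := (S.e_wd _).2 ⟨i, s, t, hi, hs, rfl⟩
    have h0 : (0 : ℝ) < nm b c (cn S.e i s t) := by exact_mod_cast wd_nm S hwd
    have h3 := sbc_gap S hM hM' hi hs (X := 1 + nm b c (cn S.e i s t)) (t := t) (by linarith)
      (by linarith)
    have h4 := sbc_mono S (show i + 1 ≤ i' from hlt) hi'.le
    have h5 : 0 < S.c₁ / M / (1 + nm b c (cn S.e i s t)) := by
      have := S.c₁_pos
      positivity
    linarith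
  rcases lt_trichotomy i i' with hlt | heq | hlt
  · exact absurd h (key hi hi' hs hs' hlt)
  · subst heq
    exact ⟨i, s, t, s', t', hi, hs, hs', rfl, rfl⟩
  · exact absurd (fun j hj => (h j hj).symm) (key hi' hi hs' hs hlt)

theorem dt_swap (v w : El) : dt w v = - dt v w := by unfold dt; ring

theorem cone_dt {i s t s' t' : ℕ} (hi : i < S.r) (hs : 1 ≤ s) (hs' : 1 ≤ s') {X : ℝ}
    (hX : 0 ≤ X) (h1 : (nm b c (cn S.e i s t) : ℝ) ≤ X) (h2 : (nm b c (cn S.e i s' t') : ℝ) ≤ X)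
    (hd : 0 < dt (cn S.e i s t) (cn S.e i s' t')) :
    (dt (cn S.e i s t) (cn S.e i s' t') : ℝ) ≤
      |S.u (cn S.e i s t) - S.u (cn S.e i s' t')| * X / S.c₁ := by
  have h := (S.u_det i s t s' t' hi hd).1
  have w1 : S.wd (cn S.e i s t) := (S.e_wd _).2 ⟨i, s, t, hi, hs, rfl⟩
  have w2 : S.wd (cn S.e i s' t') := (S.e_wd _).2 ⟨i, s', t', hi, hs', rfl⟩
  have n1 : (0 : ℝ) < nm b c (cn S.e i s t) := by exact_mod_cast wd_nm S w1
  have n2 : (0 : ℝ) < nm b c (cn S.e i s' t') := by exact_mod_cast wd_nm S w2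
  set Q := Real.sqrt (nm b c (cn S.e i s t) * nm b c (cn S.e i s' t')) with hQ
  have hQ0 : 0 < Q := Real.sqrt_pos.2 (mul_pos n1 n2)
  have hQX : Q ≤ X := by
    rw [hQ, Real.sqrt_le_left hX]
    nlinarith
  have hc := S.c₁_pos
  have hdr : (0 : ℝ) < dt (cn S.e i s t) (cn S.e i s' t') := by exact_mod_cast hd
  rw [le_div_iff₀ hc]
  rw [div_le_iff₀ hQ0] at h
  have h3 : uu S.ur (cn S.e i s' t') - uu S.ur (cn S.e i s t) ≤
      |S.u (cn S.e i s t) - S.u (cn S.e i s' t')| := by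
    rw [abs_sub_comm]
    exact le_abs_self _
  have h4 := abs_nonneg (S.u (cn S.e i s t) - S.u (cn S.e i s' t'))
  calc (dt (cn S.e i s t) (cn S.e i s' t') : ℝ) * S.c₁
      = S.c₁ * dt (cn S.e i s t) (cn S.e i s' t') := by ring
    _ ≤ (uu S.ur (cn S.e i s' t') - uu S.ur (cn S.e i s t)) * Q := h
    _ ≤ |S.u (cn S.e i s t) - S.u (cn S.e i s' t')| * Q :=
        mul_le_mul_of_nonneg_right h3 hQ0.le
    _ ≤ |S.u (cn S.e i s t) - S.u (cn S.e i s' t')| * X :=
        mul_le_mul_of_nonneg_left hQX h4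

/-- the determinant on an arc which does not meet the ends of the cones -/
theorem arc_dt {J : Finset ℝ} (hJ : ends S ⊆ J) {v w : El} (hv : S.wd v) (hw : S.wd w) {X : ℝ}
    (hvX : (nm b c v : ℝ) ≤ X) (hwX : (nm b c w : ℝ) ≤ X)
    (h : ∀ j ∈ J, (j ≤ S.u v ↔ j ≤ S.u w)) :
    |(dt v w : ℝ)| ≤ |S.u v - S.u w| * X / S.c₁ := by
  have hX : 0 ≤ X := by
    have : (0 : ℝ) < nm b c v := by exact_mod_cast wd_nm S hv
    linarith
  obtain ⟨i, s, t, s', t', hi, hs, hs', rfl, rfl⟩ := same_cone S hJ hv hw h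
  have hc := S.c₁_pos
  rcases lt_trichotomy 0 (dt (cn S.e i s t) (cn S.e i s' t')) with h0 | h0 | h0
  · rw [abs_of_pos (by exact_mod_cast h0)]
    exact cone_dt S hi hs hs' hX hvX hwX h0
  · rw [← h0]; simp; positivity
  · have h1 : 0 < dt (cn S.e i s' t') (cn S.e i s t) := by rw [dt_swap]; omega
    have h2 := cone_dt S hi hs' hs hX hwX hvX h1
    rw [abs_sub_comm, dt_swap] at h2
    rw [abs_of_neg (by exact_mod_cast h0)]
    push_cast at h2
    exact h2

/-- the points `k / n`, `k < n` -/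
noncomputable def grid (n : ℕ) : Finset ℝ := by
  classical
  exact (Finset.range n).image (fun k : ℕ => (k : ℝ) / (n : ℝ))

theorem grid_card (n : ℕ) : (grid n).card ≤ n := by
  classical
  unfold grid
  exact le_trans Finset.card_image_le (by rw [Finset.card_range])

theorem grid_close {n : ℕ} (hn : 1 ≤ n) {J : Finset ℝ} (hJ : grid n ⊆ J) {x y : ℝ}
    (hx : 0 ≤ x ∧ x < 1) (hy : 0 ≤ y ∧ y < 1) (h : ∀ j ∈ J, (j ≤ x ↔ j ≤ y)) :
    |x - y| ≤ 1 / n := by
  classical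
  have hn0 : (0 : ℝ) < n := by exact_mod_cast hn
  have key : ∀ {x y : ℝ}, (0 ≤ x ∧ x < 1) → (0 ≤ y ∧ y < 1) → (∀ j ∈ J, (j ≤ x ↔ j ≤ y)) →
      y - x ≤ 1 / n := by
    intro x y hx hy h
    set k := ⌊(n : ℝ) * x⌋₊ with hk
    have h1 : (n : ℝ) * x < k + 1 := Nat.lt_floor_add_one _
    have h0 : (k : ℝ) ≤ n * x := Nat.floor_le (mul_nonneg hn0.le hx.1)
    by_cases hkn : k + 1 < n
    · have hmem : ((k + 1 : ℕ) : ℝ) / n ∈ J := hJ (by
        unfold grid
        exact Finset.mem_image.2 ⟨k + 1, Finset.mem_range.2 hkn, rfl⟩)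
      have h2 : ¬ (((k + 1 : ℕ) : ℝ) / n ≤ x) := by
        push Not
        rw [lt_div_iff₀ hn0]
        push_cast
        linarith
      have h3 : y < ((k + 1 : ℕ) : ℝ) / n := by
        by_contra hc
        push Not at hc
        exact h2 ((h _ hmem).2 hc)
      rw [lt_div_iff₀ hn0] at h3
      rw [le_div_iff₀ hn0]
      push_cast at h3
      nlinarith
    · have h2 : (n : ℝ) ≤ k + 1 := by
        have : n ≤ k + 1 := by omega
        exact_mod_cast this
      rw [le_div_iff₀ hn0]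
      nlinarith [hy.2]
  rw [abs_le]
  constructor
  · have := key hx hy h
    linarith
  · have := key hy hx (fun j hj => (h j hj).symm)
    linarith

end Pool.Agent.AQE
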