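import Pool.Agent.Lib_helper1.AQE.B

/-! # AQE (MP_892e4c_nt): few bad pairs, so a step function (helper1) -/

set_option autoImplicit false

namespace Pool.Agent.AQE

open Finset Pool.Agent.MQ

open Classical in
/-- the pairs of `P` of different signs with small positive determinant in the same arc -/
noncomputable def badP (P : Finset El) (u : El → ℝ) (g : El → ℤ) (J : Finset ℝ) (H : ℝ) :
    Finset (El × El) :=
  (P ×ˢ P).filter (fun z => 0 < dt z.1 z.2 ∧ (dt z.1 z.2 : ℝ) ≤ H ∧ g z.1 ≠ g z.2 ∧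
    ∀ j ∈ J, (j ≤ u z.1 ↔ j ≤ u z.2))

open Classical in
theorem step_of_pairs {P P₁ : Finset El} (hP : P₁ ⊆ P) {u : El → ℝ} {g : El → ℤ}
    {J : Finset ℝ} (h0 : (0 : ℝ) ∈ J) (hu : ∀ m ∈ P, 0 ≤ u m ∧ u m < 1)
    (hg : ∀ m ∈ P, g m = 1 ∨ g m = -1) {H : ℝ}
    (hdt : ∀ v ∈ P₁, ∀ w ∈ P₁, (∀ j ∈ J, (j ≤ u v ↔ j ≤ u w)) → |(dt v w : ℝ)| ≤ H)
    (hpar : ∀ v ∈ P₁, ∀ w ∈ P₁, (∀ j ∈ J, (j ≤ u v ↔ j ≤ u w)) → dt v w = 0 → g v = g w)
    {E₁ E₂ : ℝ} (h1 : ((P \ P₁).card : ℝ) ≤ E₁) (h2 : ((badP P₁ u g J H).card : ℝ) ≤ E₂) :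
    ∃ F : ℝ → ℝ, (∀ t, F (t + 1) = F t) ∧ Measurable F ∧ (∀ t, F t = 1 ∨ F t = -1) ∧
      (∀ s t : ℝ, s ≤ t → (∀ j ∈ J, ∀ n : ℤ, ¬ (s < j + n ∧ j + n ≤ t)) → F s = F t) ∧
      ((P.filter (fun m => F (u m) ≠ g m)).card : ℝ) ≤ E₁ + 2 * E₂ := by
  refine ⟨arcF P₁ u g J, arcF_per _ _ _ _, arcF_meas _ _ _ _, arcF_pm _ _ _ _,
    fun s t hst h => arcF_jump _ _ _ _ h0 hst h, ?_⟩
  have e1 : P.filter (fun m => arcF P₁ u g J (u m) ≠ g m) ⊆
      (P \ P₁) ∪ P₁.filter (fun m => arcF P₁ u g J (u m) ≠ g m) := by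
    intro m hm
    rw [Finset.mem_filter] at hm
    rw [Finset.mem_union, Finset.mem_sdiff, Finset.mem_filter]
    by_cases h : m ∈ P₁
    · right; exact ⟨h, hm.2⟩
    · left; exact ⟨hm.1, h⟩
  have e2 := arcF_good P₁ u g J (fun m hm => hu m (hP hm)) (fun m hm => hg m (hP hm))
  have e3 : (arcP P₁ u g J).card ≤ 2 * (badP P₁ u g J H).card := by
    have : arcP P₁ u g J ⊆ badP P₁ u g J H ∪ (badP P₁ u g J H).image Prod.swap := by
      intro z hz
      unfold arcP at hz
      rw [Finset.mem_filter, Finset.mem_product] at hz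
      obtain ⟨⟨z1, z2⟩, g1, g2, hj⟩ := hz
      have hne : dt z.1 z.2 ≠ 0 := by
        intro h
        have := hpar z.1 z1 z.2 z2 hj h
        rw [g1, g2] at this
        norm_num at this
      have hle := hdt z.1 z1 z.2 z2 hj
      rw [Finset.mem_union, Finset.mem_image]
      rcases lt_or_gt_of_ne hne with h | h
      · right
        refine ⟨(z.2, z.1), ?_, rfl⟩
        unfold badP
        rw [Finset.mem_filter, Finset.mem_product]
        refine ⟨⟨z2, z1⟩, ?_, ?_, ?_, fun j h' => (hj j h').symm⟩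
        · change 0 < dt z.2 z.1
          rw [dt_swap]; omega
        · change ((dt z.2 z.1 : ℤ) : ℝ) ≤ H
          rw [dt_swap]
          push_cast
          rw [abs_of_neg (by exact_mod_cast h)] at hle
          exact hle
        · change g z.2 ≠ g z.1
          rw [g1, g2]; norm_num
      · left
        unfold badP
        rw [Finset.mem_filter, Finset.mem_product]
        refine ⟨⟨z1, z2⟩, h, ?_, ?_, hj⟩
        · rw [abs_of_pos (by exact_mod_cast h)] at hle
          exact hle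
        · rw [g1, g2]; norm_num
    calc (arcP P₁ u g J).card ≤ (badP P₁ u g J H ∪ (badP P₁ u g J H).image Prod.swap).card :=
          Finset.card_le_card this
      _ ≤ (badP P₁ u g J H).card + ((badP P₁ u g J H).image Prod.swap).card := Finset.card_union_le _ _
      _ ≤ (badP P₁ u g J H).card + (badP P₁ u g J H).card := by
          apply Nat.add_le_add_left
          exact Finset.card_image_le
      _ = 2 * (badP P₁ u g J H).card := by ring
  have e4 : ((P.filter (fun m => arcF P₁ u g J (u m) ≠ g m)).card : ℝ) ≤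
      (P \ P₁).card + 2 * (badP P₁ u g J H).card := by
    have := le_trans (Finset.card_le_card e1) (Finset.card_union_le _ _)
    have h5 : (P.filter (fun m => arcF P₁ u g J (u m) ≠ g m)).card ≤
        (P \ P₁).card + 2 * (badP P₁ u g J H).card := by omega
    exact_mod_cast h5
  linarith

/-- the arcs of the window: the ends of the cones and the points `k / n` -/
noncomputable def arcJ {b c : ℤ} (S : Sys b c) (n : ℕ) : Finset ℝ := by
  classical
  exact ends S ∪ grid n

theorem arcJ_card {b c : ℤ} (S : Sys b c) (n : ℕ) : (arcJ S n).card ≤ S.r + n := by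
  classical
  unfold arcJ
  exact le_trans (Finset.card_union_le _ _) (Nat.add_le_add (ends_card S) (grid_card n))

theorem arcJ_zero {b c : ℤ} (S : Sys b c) (n : ℕ) : (0 : ℝ) ∈ arcJ S n := by
  classical
  unfold arcJ
  exact Finset.mem_union_left _ (ends_zero S)

/-- on an arc of the window the determinant is at most `X / (c₁ n)` -/
theorem arcJ_dt {b c : ℤ} (S : Sys b c) {n : ℕ} (hn : 1 ≤ n) {v w : El} (hv : S.wd v)
    (hw : S.wd w) {X : ℝ} (hvX : (nm b c v : ℝ) ≤ X) (hwX : (nm b c w : ℝ) ≤ X)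
    (h : ∀ j ∈ arcJ S n, (j ≤ S.u v ↔ j ≤ S.u w)) : |(dt v w : ℝ)| ≤ X / (S.c₁ * n) := by
  classical
  have h1 := arc_dt S (J := arcJ S n) (by unfold arcJ; exact Finset.subset_union_left) hv hw hvX
    hwX h
  have h2 := grid_close hn (J := arcJ S n) (by unfold arcJ; exact Finset.subset_union_right)
    (u_range_pr S hv) (u_range_pr S hw) h
  have hX : 0 ≤ X := by
    have : (0 : ℝ) < nm b c v := by exact_mod_cast wd_nm S hv
    linarith
  have hc := S.c₁_pos
  have hn0 : (0 : ℝ) < n := by exact_mod_cast hn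
  calc |(dt v w : ℝ)| ≤ |S.u v - S.u w| * X / S.c₁ := h1
    _ ≤ 1 / n * X / S.c₁ := by gcongr
    _ = X / (S.c₁ * n) := by field_simp

end Pool.Agent.AQE
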