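import Pool.Agent.Lib_helper1.AQE.C
import Pool.Agent.Lib_helper39.MQX.SBB

/-! # AQE (MP_892e4c_nt): few elements outside the compact region (helper1) -/

set_option autoImplicit false

namespace Pool.Agent.AQE

open Finset Pool.Agent.MQ

variable {b c : ℤ} (S : Sys b c)

open Classical in
/-- few elements of the window have small norm or a small first coordinate -/
theorem few_bad : ∃ K : ℝ, 1 ≤ K ∧ ∀ C Y : ℝ, 1 ≤ C → 1 ≤ Y →
    (((S.MF Y).filter (fun w => ¬ (Y ≤ C * nm b c w ∧ Real.sqrt Y ≤ C * |(w.1 : ℝ)|))).card : ℝ) ≤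
      K * (Y / C + Real.sqrt Y) := by
  obtain ⟨K₁, hK₁, hsz⟩ := wd_size_pr S
  obtain ⟨K₂, hK₂, hcd⟩ := MF_card_pr S
  refine ⟨K₂ + 9 * K₁, by linarith, ?_⟩
  intro C Y hC hY
  have hC0 : 0 < C := by linarith
  have hs1 : 1 ≤ Real.sqrt Y := by rw [Real.one_le_sqrt]; exact hY
  have hss : Real.sqrt Y * Real.sqrt Y = Y := Real.mul_self_sqrt (by linarith)
  set A := Real.sqrt Y / C with hA
  have hA0 : 0 ≤ A := by positivity
  set B := Real.sqrt (K₁ * Y) with hB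
  have hB0 : 0 ≤ B := Real.sqrt_nonneg _
  have hBB : B * B = K₁ * Y := Real.mul_self_sqrt (by nlinarith)
  have hBle : B ≤ K₁ * Real.sqrt Y := by
    rw [hB, Real.sqrt_le_left (by positivity)]
    have : (K₁ * Real.sqrt Y) ^ 2 = K₁ ^ 2 * Y := by
      rw [mul_pow, Real.sq_sqrt (by linarith)]
    rw [this]
    nlinarith
  -- covering
  have hcov : (S.MF Y).filter (fun w => ¬ (Y ≤ C * nm b c w ∧ Real.sqrt Y ≤ C * |(w.1 : ℝ)|)) ⊆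
      S.MF (max 1 (Y / C)) ∪ (Icc (-⌊A⌋) ⌊A⌋) ×ˢ (Icc (-⌊B⌋) ⌊B⌋) := by
    intro w hw
    rw [Finset.mem_filter, mem_MF_pr S] at hw
    obtain ⟨⟨hwd, hn⟩, hw⟩ := hw
    rw [Finset.mem_union]
    by_cases h1 : Y ≤ C * nm b c w
    · right
      have h2 : ¬ (Real.sqrt Y ≤ C * |(w.1 : ℝ)|) := fun h => hw ⟨h1, h⟩
      push Not at h2
      have h3 := hsz w hwd
      have key : ∀ (z : ℤ) (x : ℝ), |(z : ℝ)| ≤ x → z ∈ Icc (-⌊x⌋) ⌊x⌋ := by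
        intro z x hz
        obtain ⟨h4, h5⟩ := abs_le.1 hz
        rw [Finset.mem_Icc]
        refine ⟨?_, Int.le_floor.2 h5⟩
        have : -z ≤ ⌊x⌋ := Int.le_floor.2 (by push_cast; linarith)
        linarith
      rw [Finset.mem_product]
      refine ⟨key _ _ ?_, key _ _ ?_⟩
      · rw [hA, le_div_iff₀ hC0]; linarith
      · rw [hB]
        apply Real.abs_le_sqrt
        have : K₁ * nm b c w ≤ K₁ * Y := mul_le_mul_of_nonneg_left hn (by linarith)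
        nlinarith [sq_nonneg (w.1 : ℝ)]
    · left
      push Not at h1
      rw [mem_MF_pr S]
      refine ⟨hwd, le_trans ?_ (le_max_right _ _)⟩
      rw [le_div_iff₀ hC0]; linarith
  have h1 := le_trans (Finset.card_le_card hcov) (Finset.card_union_le _ _)
  rw [Finset.card_product] at h1
  have hIcc : ∀ x : ℝ, 0 ≤ x → (((Icc (-⌊x⌋) ⌊x⌋).card : ℕ) : ℝ) ≤ 2 * x + 1 := by
    intro x hx
    rw [Int.card_Icc]
    have hf : 0 ≤ ⌊x⌋ := Int.floor_nonneg.2 hx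
    have h2 : (((⌊x⌋ + 1 - -⌊x⌋).toNat : ℕ) : ℝ) = 2 * (⌊x⌋ : ℝ) + 1 := by
      have : ((⌊x⌋ + 1 - -⌊x⌋).toNat : ℤ) = 2 * ⌊x⌋ + 1 := by
        rw [Int.toNat_of_nonneg (by linarith)]; ring
      have h3 : (((⌊x⌋ + 1 - -⌊x⌋).toNat : ℤ) : ℝ) = ((2 * ⌊x⌋ + 1 : ℤ) : ℝ) := by rw [this]
      rw [Int.cast_natCast] at h3
      rw [h3]
      push_cast
      ring
    rw [h2]
    have := Int.floor_le x
    linarith
  have hA1 := hIcc A hA0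
  have hB1 := hIcc B hB0
  have hM := (hcd (max 1 (Y / C)) (le_max_left _ _)).2
  have hYC : 0 ≤ Y / C := by positivity
  have hmax : max 1 (Y / C) ≤ Real.sqrt Y + Y / C := by
    apply max_le
    · linarith
    · linarith
  have hprod : (((Icc (-⌊A⌋) ⌊A⌋).card : ℕ) : ℝ) * (((Icc (-⌊B⌋) ⌊B⌋).card : ℕ) : ℝ) ≤
      9 * K₁ * (Y / C + Real.sqrt Y) := by
    have h2 : (((Icc (-⌊A⌋) ⌊A⌋).card : ℕ) : ℝ) * (((Icc (-⌊B⌋) ⌊B⌋).card : ℕ) : ℝ) ≤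
        (2 * A + 1) * (2 * B + 1) := by
      apply mul_le_mul hA1 hB1 (by positivity) (by positivity)
    have h3 : B + 1 ≤ 2 * K₁ * Real.sqrt Y := by nlinarith
    have h4 : 2 * B + 1 ≤ 3 * K₁ * Real.sqrt Y := by nlinarith
    have h5 : A * Real.sqrt Y = Y / C := by
      rw [hA, div_mul_eq_mul_div, hss]
    calc (((Icc (-⌊A⌋) ⌊A⌋).card : ℕ) : ℝ) * (((Icc (-⌊B⌋) ⌊B⌋).card : ℕ) : ℝ)
        ≤ (2 * A + 1) * (2 * B + 1) := h2
      _ ≤ (2 * A + 1) * (3 * K₁ * Real.sqrt Y) :=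
          mul_le_mul_of_nonneg_left h4 (by positivity)
      _ = 6 * K₁ * (A * Real.sqrt Y) + 3 * K₁ * Real.sqrt Y := by ring
      _ = 6 * K₁ * (Y / C) + 3 * K₁ * Real.sqrt Y := by rw [h5]
      _ ≤ 9 * K₁ * (Y / C + Real.sqrt Y) := by nlinarith
  have h6 : (((S.MF Y).filter (fun w => ¬ (Y ≤ C * nm b c w ∧
      Real.sqrt Y ≤ C * |(w.1 : ℝ)|))).card : ℝ) ≤ ((S.MF (max 1 (Y / C))).card : ℝ) +
      (((Icc (-⌊A⌋) ⌊A⌋).card : ℕ) : ℝ) * (((Icc (-⌊B⌋) ⌊B⌋).card : ℕ) : ℝ) := by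
    exact_mod_cast h1
  nlinarith

/-! ### the compact region and the hypothesis -/

/-- the compact region of helper8's PAIRS -/
def Rg (D : ℤ) (C Y : ℝ) (w : ℤ × ℤ) : Prop :=
  Real.sqrt Y ≤ C * w.1 ∧ (w.1 : ℝ) ≤ C * Real.sqrt Y ∧ |(w.2 : ℝ)| ≤ C * Real.sqrt Y ∧
    Y ≤ C * ((w.1 : ℝ) ^ 2 + D * (w.2 : ℝ) ^ 2)

/-- an element of the window outside the exceptional set lies in the region, up to the sign -/
theorem rg_of_wd {D : ℤ} (S : Sys 0 D) : ∃ K : ℝ, 1 ≤ K ∧ ∀ C Y : ℝ, K ≤ C → 1 ≤ Y →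
    ∀ w : El, S.wd w → (nm 0 D w : ℝ) ≤ Y → Y ≤ C * nm 0 D w → Real.sqrt Y ≤ C * |(w.1 : ℝ)| →
      (0 < w.1 ∧ Rg D C Y w) ∨ (w.1 < 0 ∧ Rg D C Y (-w)) := by
  obtain ⟨K₁, hK₁, hsz⟩ := wd_size_pr S
  refine ⟨K₁, hK₁, ?_⟩
  intro C Y hC hY w hw hn h1 h2
  have h3 := hsz w hw
  have hC0 : 0 < C := by linarith
  have hY0 : 0 ≤ Y := by linarith
  have hs1 : 1 ≤ Real.sqrt Y := by rw [Real.one_le_sqrt]; exact hY
  have hss : Real.sqrt Y * Real.sqrt Y = Y := Real.mul_self_sqrt (by linarith)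
  have h4 : K₁ * nm 0 D w ≤ K₁ * Y := mul_le_mul_of_nonneg_left hn (by linarith)
  have h5 : K₁ * Y ≤ (C * Real.sqrt Y) ^ 2 := by
    rw [mul_pow, Real.sq_sqrt hY0]
    apply mul_le_mul_of_nonneg_right _ hY0
    nlinarith
  have e1 : |(w.1 : ℝ)| ≤ C * Real.sqrt Y := by
    apply abs_le_of_sq_le_sq _ (by positivity)
    nlinarith [sq_nonneg (w.2 : ℝ)]
  have e2 : |(w.2 : ℝ)| ≤ C * Real.sqrt Y := by
    apply abs_le_of_sq_le_sq _ (by positivity)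
    nlinarith [sq_nonneg (w.1 : ℝ)]
  have e3 : ((nm 0 D w : ℤ) : ℝ) = (w.1 : ℝ) ^ 2 + D * (w.2 : ℝ) ^ 2 := by
    unfold nm; push_cast; ring
  rcases lt_trichotomy w.1 0 with h | h | h
  · right
    refine ⟨h, ?_⟩
    have h' : (w.1 : ℝ) < 0 := by exact_mod_cast h
    rw [abs_of_neg h'] at h2 e1
    refine ⟨?_, ?_, ?_, ?_⟩
    · simp only [Prod.fst_neg]; push_cast; linarith
    · simp only [Prod.fst_neg]; push_cast; linarith
    · simp only [Prod.snd_neg]; push_cast; rw [abs_neg]; exact e2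
    · simp only [Prod.fst_neg, Prod.snd_neg]; push_cast
      rw [neg_sq, neg_sq, ← e3]; exact h1
  · exfalso
    rw [h] at h2
    simp at h2
    linarith
  · left
    refine ⟨h, ?_⟩
    have h' : (0 : ℝ) < (w.1 : ℝ) := by exact_mod_cast h
    rw [abs_of_pos h'] at h2 e1
    exact ⟨h2, e1, e2, by rw [← e3]; exact h1⟩

/-- the hypothesis at the scale `Y` (helper8's PAIRS) -/
def PairsAt (D : ℤ) (R : ℕ) (χ : ℕ → ℤ) (h : ℕ → ℤ) (C H δ Y : ℝ) : Prop :=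
  ∀ A : Finset ((ℤ × ℤ) × (ℤ × ℤ)), (∀ z ∈ A, Rg D C Y z.1 ∧ Rg D C Y z.2 ∧
    IsCoprime z.1.1 z.1.2 ∧ IsCoprime z.2.1 z.2.2 ∧ IsCoprime z.1.1 (R : ℤ) ∧
    IsCoprime z.2.1 (R : ℤ) ∧ χ z.1.1.natAbs = χ z.2.1.natAbs ∧ 0 < dt z.1 z.2 ∧
    (dt z.1 z.2 : ℝ) ≤ H ∧ h (nm 0 D z.1).natAbs ≠ h (nm 0 D z.2).natAbs) →
    (A.card : ℝ) ≤ δ * Y

end Pool.Agent.AQE
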