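import Pool.Agent.Lib_helper1.AQE.D

/-! # AQE (MP_892e4c_nt): the end (helper1)

`g(t) = a₀ t² + 2 b₀ t + 1`, `a₀ = b₀² + D`: if almost all close pairs have equal signs whenever one sign is
rare, and this forces `h(g(t)) = 1` for all `t = 0` modulo `M`, then `h(g(t)) = 1` has positive lower
density. -/

set_option autoImplicit false

namespace Pool.Agent.AQE

open Finset Pool.Agent.MQ

/-- the polynomial -/
def gp (b₀ D t : ℤ) : ℤ := (b₀ ^ 2 + D) * t ^ 2 + 2 * b₀ * t + 1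

theorem gp_nm (b₀ D t : ℤ) : nm 0 D (1 + t * b₀, t) = gp b₀ D t := by
  unfold nm gp; ring

theorem gp_nm' (b₀ D t : ℤ) : nm 0 D (1 + t * b₀, -t) = gp b₀ D t := by
  unfold nm gp; ring

theorem gp_mul (b₀ D t : ℤ) : (b₀ ^ 2 + D) * gp b₀ D t = (b₀ + (b₀ ^ 2 + D) * t) ^ 2 + D := by
  unfold gp; ring

theorem zt_cop (b₀ t : ℤ) : IsCoprime (1 + t * b₀) t := ⟨1, -b₀, by ring⟩

/-- the number of the `n ≤ x` which satisfy `P` -/
noncomputable def cnt (P : ℕ → Prop) (x : ℝ) : ℝ := by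
  classical
  exact (((Finset.Icc 1 ⌊x⌋₊).filter P).card : ℝ)

theorem cnt_mono {P : ℕ → Prop} {x y : ℝ} (h : x ≤ y) : cnt P x ≤ cnt P y := by
  classical
  unfold cnt
  have : (Finset.Icc 1 ⌊x⌋₊).filter P ⊆ (Finset.Icc 1 ⌊y⌋₊).filter P := by
    intro n hn
    rw [Finset.mem_filter, Finset.mem_Icc] at hn ⊢
    exact ⟨⟨hn.1.1, hn.1.2.trans (Nat.floor_le_floor h)⟩, hn.2⟩
  exact_mod_cast Finset.card_le_card this

/-- from the progression to the polynomial -/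
theorem cnt_prog {b₀ D : ℤ} (ha : 0 < b₀ ^ 2 + D) (hD : ¬ IsSquare (-D)) {h : ℕ → ℤ}
    (hh : Sgn h) {X : ℝ} (hX : 0 ≤ X) :
    cnt (fun M : ℕ => b₀ ^ 2 + D ∣ (M : ℤ) - b₀ ∧
      h ((M : ℤ) ^ 2 + D).natAbs = h (b₀ ^ 2 + D).natAbs) X ≤
      |(b₀ : ℝ)| + cnt (fun t : ℕ => h (gp b₀ D t).natAbs = 1) (X + |(b₀ : ℝ)|) := by
  classical
  set a₀ : ℤ := b₀ ^ 2 + D with ha₀
  have ha1 : (1 : ℝ) ≤ a₀ := by exact_mod_cast ha
  -- the elements `M ≤ b₀` and the others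
  have hcov : (Finset.Icc 1 ⌊X⌋₊).filter (fun M : ℕ => a₀ ∣ (M : ℤ) - b₀ ∧
      h ((M : ℤ) ^ 2 + D).natAbs = h a₀.natAbs) ⊆ (Finset.Icc 1 b₀.natAbs) ∪
      ((Finset.Icc 1 ⌊X + |(b₀ : ℝ)|⌋₊).filter (fun t : ℕ => h (gp b₀ D t).natAbs = 1)).image
        (fun t : ℕ => (b₀ + a₀ * t).toNat) := by
    intro M hM
    rw [Finset.mem_filter, Finset.mem_Icc] at hM
    obtain ⟨⟨hM1, hM2⟩, hdv, hval⟩ := hM
    rw [Finset.mem_union]
    by_cases hle : (M : ℤ) ≤ b₀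
    · left
      rw [Finset.mem_Icc]
      refine ⟨hM1, ?_⟩
      omega
    · right
      push Not at hle
      obtain ⟨t, ht⟩ := hdv
      have htpos : 0 < t := by
        have : 0 < a₀ * t := by rw [← ht]; linarith
        exact (pos_iff_pos_of_mul_pos this).1 ha
      have hMt : (M : ℤ) = b₀ + a₀ * t := by linarith
      rw [Finset.mem_image]
      have htn : ((t.toNat : ℕ) : ℤ) = t := Int.toNat_of_nonneg htpos.le
      refine ⟨t.toNat, ?_, ?_⟩
      · rw [Finset.mem_filter, Finset.mem_Icc]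
        refine ⟨⟨by omega, ?_⟩, ?_⟩
        · apply Nat.le_floor
          have h1 : ((t.toNat : ℕ) : ℝ) = (t : ℝ) := by exact_mod_cast htn
          rw [h1]
          have h2 : (M : ℝ) ≤ X := (Nat.cast_le.2 hM2).trans (Nat.floor_le hX)
          have h3 : (M : ℝ) = b₀ + a₀ * t := by exact_mod_cast hMt
          have h4 : (0 : ℝ) < t := by exact_mod_cast htpos
          have h5 : (t : ℝ) ≤ a₀ * t := by nlinarith
          have h6 := neg_abs_le (b₀ : ℝ)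
          linarith
        · rw [htn]
          have e : (M : ℤ) ^ 2 + D = a₀ * gp b₀ D t := by rw [gp_mul, ← ha₀, hMt]
          have hg0 : gp b₀ D t ≠ 0 := by
            intro h0
            rw [h0, mul_zero] at e
            exact hD ⟨M, by linarith⟩
          rw [e, Int.natAbs_mul, hh.mul _ _ (Int.natAbs_pos.2 ha.ne') (Int.natAbs_pos.2 hg0)]
            at hval
          rcases hh.pm a₀.natAbs (Int.natAbs_pos.2 ha.ne') with h1 | h1
          · rw [h1] at hval; linarith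
          · rw [h1] at hval; linarith
      · rw [htn, ← hMt, Int.toNat_natCast]
  have h1 := le_trans (Finset.card_le_card hcov) (Finset.card_union_le _ _)
  rw [Nat.card_Icc, Nat.add_sub_cancel] at h1
  have h2 := Finset.card_image_le (s := (Finset.Icc 1 ⌊X + |(b₀ : ℝ)|⌋₊).filter
    (fun t : ℕ => h (gp b₀ D t).natAbs = 1)) (f := fun t : ℕ => (b₀ + a₀ * t).toNat)
  have h3 : ((b₀.natAbs : ℕ) : ℝ) = |(b₀ : ℝ)| := by
    rw [Nat.cast_natAbs, Int.cast_abs]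
  have h4 := le_trans h1 (Nat.add_le_add_left h2 _)
  have h5 : (((Finset.Icc 1 ⌊X⌋₊).filter (fun M : ℕ => a₀ ∣ (M : ℤ) - b₀ ∧
      h ((M : ℤ) ^ 2 + D).natAbs = h a₀.natAbs)).card : ℝ) ≤ (b₀.natAbs : ℝ) +
      (((Finset.Icc 1 ⌊X + |(b₀ : ℝ)|⌋₊).filter
        (fun t : ℕ => h (gp b₀ D t).natAbs = 1)).card : ℝ) := by
    exact_mod_cast h4
  rw [h3] at h5
  unfold cnt
  convert h5

/-- **the end** -/
theorem end_density {b₀ D : ℤ} {R M : ℕ} {χ : ℕ → ℤ} (ha : 0 < b₀ ^ 2 + D)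
    (hD : ¬ IsSquare (-D)) (hM : 1 ≤ M)
    (hI : ∀ C H δ : ℝ, 0 < C → 0 < H → 0 < δ → ∃ (c : ℝ) (K : ℕ) (Y₀ : ℝ), 0 < c ∧
      ∀ h : ℕ → ℤ, Sgn h → ∀ Y : ℝ, Y₀ ≤ Y → ∀ σ : ℤ, (σ = 1 ∨ σ = -1) →
        cnt (fun n : ℕ => b₀ ^ 2 + D ∣ (n : ℤ) - b₀ ∧ h ((n : ℤ) ^ 2 + D).natAbs = σ) (K * Y) <
          c * Y → PairsAt D R χ h C H δ Y)
    {t₁ : ℕ} (hII : ∀ t : ℕ, t₁ ≤ t → M ∣ t → ∃ C H δ Y₁ : ℝ, 0 < C ∧ 0 < H ∧ 0 < δ ∧
      ∀ h : ℕ → ℤ, Sgn h → ∀ Y : ℝ, Y₁ ≤ Y → PairsAt D R χ h C H δ Y →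
        h (gp b₀ D t).natAbs = 1)
    {h : ℕ → ℤ} (hh : Sgn h) : ∃ c x₀ : ℝ, 0 < c ∧ ∀ x : ℝ, x₀ ≤ x →
      c * x ≤ cnt (fun t : ℕ => h (gp b₀ D t).natAbs = 1) x := by
  classical
  by_cases hall : ∀ t : ℕ, t₁ ≤ t → M ∣ t → h (gp b₀ D t).natAbs = 1
  · -- the progression has positive density
    have hM0 : (0 : ℝ) < M := by exact_mod_cast hM
    refine ⟨1 / (2 * M), 4 * (t₁ + 1) * M, by positivity, ?_⟩
    intro x hx
    have hx0 : 0 ≤ x := le_trans (by positivity) hx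
    have hsub : (Finset.Icc (t₁ + 1) ⌊x / M⌋₊).image (fun j => M * j) ⊆
        (Finset.Icc 1 ⌊x⌋₊).filter (fun t : ℕ => h (gp b₀ D t).natAbs = 1) := by
      intro t ht
      rw [Finset.mem_image] at ht
      obtain ⟨j, hj, rfl⟩ := ht
      rw [Finset.mem_Icc] at hj
      rw [Finset.mem_filter, Finset.mem_Icc]
      have h1 : t₁ + 1 ≤ M * j := le_trans hj.1 (Nat.le_mul_of_pos_left _ hM)
      refine ⟨⟨by omega, ?_⟩, hall _ (by omega) (dvd_mul_right _ _)⟩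
      apply Nat.le_floor
      have h2 : (j : ℝ) ≤ x / M := (Nat.cast_le.2 hj.2).trans
        (Nat.floor_le (div_nonneg hx0 hM0.le))
      rw [le_div_iff₀ hM0] at h2
      push_cast
      linarith
    have hcard := Finset.card_le_card hsub
    rw [Finset.card_image_of_injective _ (fun a b hab => by
      exact Nat.eq_of_mul_eq_mul_left hM hab), Nat.card_Icc] at hcard
    have h3 : x / M < ⌊x / M⌋₊ + 1 := Nat.lt_floor_add_one _
    have h4 : ((⌊x / M⌋₊ + 1 - (t₁ + 1) : ℕ) : ℝ) ≤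
        cnt (fun t : ℕ => h (gp b₀ D t).natAbs = 1) x := by
      unfold cnt
      exact_mod_cast hcard
    have h5 : 1 / (2 * M) * x = x / M / 2 := by field_simp
    rw [h5]
    have h6 : 4 * ((t₁ : ℝ) + 1) ≤ x / M := by rw [le_div_iff₀ hM0]; linarith
    have h7 : ((⌊x / M⌋₊ : ℕ) : ℝ) - t₁ ≤ ((⌊x / M⌋₊ + 1 - (t₁ + 1) : ℕ) : ℝ) := by
      rw [Nat.add_sub_add_right]
      have : ((⌊x / M⌋₊ : ℕ) : ℝ) ≤ ((⌊x / M⌋₊ - t₁ : ℕ) : ℝ) + t₁ := by
        have : ⌊x / M⌋₊ ≤ (⌊x / M⌋₊ - t₁) + t₁ := by omega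
        exact_mod_cast this
      linarith
    have h8 : (0 : ℝ) ≤ t₁ := Nat.cast_nonneg _
    linarith
  · -- otherwise the value is taken with positive density
    push Not at hall
    obtain ⟨t, ht1, htM, ht⟩ := hall
    obtain ⟨C, H, δ, Y₁, hC, hH, hδ, hII⟩ := hII t ht1 htM
    obtain ⟨c, K, Y₀, hc, hI⟩ := hI C H δ hC hH hδ
    -- the hypothesis fails at every large scale
    set β := |(b₀ : ℝ)| with hβ
    have hβ0 : 0 ≤ β := abs_nonneg _
    set L : ℝ := (K : ℝ) + 1 with hL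
    have hL0 : 0 < L := by positivity
    set A : ℝ := max (max Y₀ Y₁) (max 1 (max β (2 * β / c))) with hA
    refine ⟨c / (2 * L), L * A, by positivity, ?_⟩
    intro x hx
    set Y := x / L with hY
    have hYA : A ≤ Y := by
      rw [hY, le_div_iff₀ hL0]; linarith
    have a1 : Y₀ ≤ Y := le_trans (le_trans (le_max_left _ _) (le_max_left _ _)) hYA
    have a2 : Y₁ ≤ Y := le_trans (le_trans (le_max_right _ _) (le_max_left _ _)) hYA
    have a3 : 1 ≤ Y := le_trans (le_trans (le_max_left _ _) (le_max_right _ _)) hYA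
    have a4 : β ≤ Y := le_trans (le_trans (le_trans (le_max_left _ _) (le_max_right _ _))
      (le_max_right _ _)) hYA
    have a5 : 2 * β / c ≤ Y := le_trans (le_trans (le_trans (le_max_right _ _)
      (le_max_right _ _)) (le_max_right _ _)) hYA
    by_contra hcon
    push Not at hcon
    have hσ := hh.pm (b₀ ^ 2 + D).natAbs (Int.natAbs_pos.2 ha.ne')
    have hKY : 0 ≤ (K : ℝ) * Y := by positivity
    have h1 := cnt_prog (b₀ := b₀) ha hD hh hKY
    have h2 : cnt (fun t : ℕ => h (gp b₀ D t).natAbs = 1) (K * Y + β) ≤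
        cnt (fun t : ℕ => h (gp b₀ D t).natAbs = 1) x := by
      apply cnt_mono
      have : L * Y = x := by rw [hY]; field_simp
      rw [← this, hL]
      linarith
    have h3 : c / (2 * L) * x = c * Y / 2 := by rw [hY]; field_simp
    have h4 : β ≤ c * Y / 2 := by
      rw [div_le_iff₀ hc] at a5
      linarith
    have h5 : cnt (fun n : ℕ => b₀ ^ 2 + D ∣ (n : ℤ) - b₀ ∧
        h ((n : ℤ) ^ 2 + D).natAbs = h (b₀ ^ 2 + D).natAbs) (K * Y) < c * Y := by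
      rw [h3] at hcon
      linarith
    exact ht (hII h hh Y a2 (hI h hh Y a1 _ hσ h5))

end Pool.Agent.AQE
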