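import Pool.Agent.Lib_helper1.AQE.D
import Pool.Agent.Lib_helper39.AQM.Defs

/-! # AQE (MP_892e4c_nt): PAIRS ==> LocH (helper1) -/

set_option autoImplicit false

namespace Pool.Agent.AQE

open Finset Pool.Agent.MQ Pool.Agent.AQM

/-- the angular system `A` covers the window `S` `μ` times (`μ ≤ 2`) -/
def Cov {D : ℤ} (A : Ang 0 D) (S : Sys 0 D) (μ : ℕ) : Prop :=
  1 ≤ μ ∧ ∀ v, A.wd v → (S.wd v ∧ A.u v = S.u v / μ) ∨
    (1 < μ ∧ S.wd (-v) ∧ A.u v = (S.u (-v) + 1) / μ)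

/-- the arcs of `A` -/
noncomputable def muJ {D : ℤ} (S : Sys 0 D) (μ n : ℕ) : Finset ℝ := by
  classical
  exact ((arcJ S n) ×ˢ (Finset.range μ)).image (fun z => (z.1 + (z.2 : ℝ)) / (μ : ℝ))

theorem muJ_card {D : ℤ} (S : Sys 0 D) (μ n : ℕ) : (muJ S μ n).card ≤ (S.r + n) * μ := by
  classical
  unfold muJ
  refine le_trans Finset.card_image_le ?_
  rw [Finset.card_product, Finset.card_range]
  exact Nat.mul_le_mul_right _ (arcJ_card S n)

theorem muJ_mem {D : ℤ} (S : Sys 0 D) {μ n : ℕ} {j : ℝ} (hj : j ∈ arcJ S n) {i : ℕ}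
    (hi : i < μ) : (j + (i : ℝ)) / (μ : ℝ) ∈ muJ S μ n := by
  classical
  unfold muJ
  exact Finset.mem_image.2 ⟨(j, i), Finset.mem_product.2 ⟨hj, Finset.mem_range.2 hi⟩, rfl⟩

theorem muJ_zero {D : ℤ} (S : Sys 0 D) {μ n : ℕ} (hμ : 1 ≤ μ) : (0 : ℝ) ∈ muJ S μ n := by
  have := muJ_mem S (arcJ_zero S n) (i := 0) (μ := μ) (by omega)
  simpa using this

theorem cov_range {D : ℤ} {A : Ang 0 D} {S : Sys 0 D} {μ : ℕ} (hc : Cov A S μ) {v : El}
    (hv : A.wd v) : 0 ≤ A.u v ∧ A.u v < 1 := by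
  have hμ : (1 : ℝ) ≤ μ := by exact_mod_cast hc.1
  have hμ0 : (0 : ℝ) < μ := by linarith
  rcases hc.2 v hv with ⟨h1, h2⟩ | ⟨h0, h1, h2⟩
  · obtain ⟨h3, h4⟩ := u_range_pr S h1
    rw [h2]
    refine ⟨by positivity, ?_⟩
    rw [div_lt_one hμ0]; linarith
  · obtain ⟨h3, h4⟩ := u_range_pr S h1
    have h5 : (2 : ℝ) ≤ μ := by exact_mod_cast h0
    rw [h2]
    refine ⟨by positivity, ?_⟩
    rw [div_lt_one hμ0]; linarith

/-- elements in the same arc of `A` -/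
theorem cov_arc {D : ℤ} {A : Ang 0 D} {S : Sys 0 D} {μ : ℕ} (hc : Cov A S μ) {n : ℕ}
    (hn : 1 ≤ n) {v w : El} (hv : A.wd v) (hw : A.wd w) {X : ℝ} (hvX : (nm 0 D v : ℝ) ≤ X)
    (hwX : (nm 0 D w : ℝ) ≤ X) (h : ∀ j ∈ muJ S μ n, (j ≤ A.u v ↔ j ≤ A.u w)) :
    |(dt v w : ℝ)| ≤ X / (S.c₁ * n) ∧ ((S.wd v ∧ S.wd w) ∨ (S.wd (-v) ∧ S.wd (-w))) := by
  have hμ : (1 : ℝ) ≤ μ := by exact_mod_cast hc.1
  have hμ0 : (0 : ℝ) < μ := by linarith
  have hnn : ∀ v : El, nm 0 D (-v) = nm 0 D v := by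
    intro v; unfold nm; simp only [Prod.fst_neg, Prod.snd_neg]; ring
  have hdd : ∀ v w : El, dt (-v) (-w) = dt v w := by
    intro v w; unfold dt; simp only [Prod.fst_neg, Prod.snd_neg]; ring
  -- the second sheet is separated from the first one
  have hsep : ∀ {v w : El}, S.wd v → A.u v = S.u v / μ → 1 < μ → S.wd (-w) →
      A.u w = (S.u (-w) + 1) / μ → ¬ (∀ j ∈ muJ S μ n, (j ≤ A.u v ↔ j ≤ A.u w)) := by
    intro v w h1 h2 h3 h4 h5 h6
    have hm := muJ_mem S (arcJ_zero S n) (i := 1) (μ := μ) h3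
    have h7 := (h6 _ hm).2 (by
      rw [h5]
      apply div_le_div_of_nonneg_right _ hμ0.le
      have := (u_range_pr S h4).1
      push_cast
      linarith)
    rw [h2] at h7
    rw [div_le_div_iff_of_pos_right hμ0] at h7
    have := (u_range_pr S h1).2
    push_cast at h7
    linarith
  rcases hc.2 v hv with ⟨h1, h2⟩ | ⟨h0, h1, h2⟩ <;> rcases hc.2 w hw with ⟨g1, g2⟩ | ⟨g0, g1, g2⟩
  · refine ⟨?_, Or.inl ⟨h1, g1⟩⟩
    apply arcJ_dt S hn h1 g1 hvX hwX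
    intro j hj
    have hm := muJ_mem S hj (i := 0) (μ := μ) (by have := hc.1; omega)
    have := h _ hm
    rw [h2, g2, div_le_div_iff_of_pos_right hμ0, div_le_div_iff_of_pos_right hμ0] at this
    simpa using this
  · exact absurd h (hsep h1 h2 g0 g1 g2)
  · exact absurd (fun j hj => (h j hj).symm) (hsep g1 g2 h0 h1 h2)
  · refine ⟨?_, Or.inr ⟨h1, g1⟩⟩
    have h3 := arcJ_dt S hn h1 g1 (X := X) (by rw [hnn]; exact hvX) (by rw [hnn]; exact hwX)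
      (by
        intro j hj
        have hm := muJ_mem S hj (i := 1) (μ := μ) h0
        have := h _ hm
        rw [h2, g2, div_le_div_iff_of_pos_right hμ0, div_le_div_iff_of_pos_right hμ0] at this
        simpa using this)
    rw [hdd] at h3
    exact h3

open Classical in
/-- few elements are exceptional -/
theorem cov_few {D : ℤ} {A : Ang 0 D} {S : Sys 0 D} {μ : ℕ} (hc : Cov A S μ) :
    ∃ K : ℝ, 1 ≤ K ∧ ∀ C Y : ℝ, 1 ≤ C → 1 ≤ Y →
    (((A.MF Y).filter (fun w => ¬ (Y ≤ C * nm 0 D w ∧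
      Real.sqrt Y ≤ C * |(w.1 : ℝ)|))).card : ℝ) ≤ K * (Y / C + Real.sqrt Y) := by
  obtain ⟨K, hK, hK'⟩ := few_bad S
  refine ⟨2 * K, by linarith, ?_⟩
  intro C Y hC hY
  have h1 := hK' C Y hC hY
  set Bd := (S.MF Y).filter (fun w => ¬ (Y ≤ C * nm 0 D w ∧ Real.sqrt Y ≤ C * |(w.1 : ℝ)|))
  have hnn : ∀ v : El, nm 0 D (-v) = nm 0 D v := by
    intro v; unfold nm; simp only [Prod.fst_neg, Prod.snd_neg]; ring
  have hsub : (A.MF Y).filter (fun w => ¬ (Y ≤ C * nm 0 D w ∧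
      Real.sqrt Y ≤ C * |(w.1 : ℝ)|)) ⊆ Bd ∪ Bd.image (fun v => -v) := by
    intro w hw
    rw [Finset.mem_filter] at hw
    obtain ⟨hw1, hw2⟩ := hw
    have hw3 : A.wd w ∧ (nm 0 D w : ℝ) ≤ Y := by
      unfold Ang0.MF at hw1
      rw [Set.Finite.mem_toFinset] at hw1
      exact hw1
    rw [Finset.mem_union, Finset.mem_image]
    rcases hc.2 w hw3.1 with ⟨g1, _⟩ | ⟨_, g1, _⟩
    · left
      rw [Finset.mem_filter, mem_MF_pr S]
      exact ⟨⟨g1, hw3.2⟩, hw2⟩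
    · right
      refine ⟨-w, ?_, neg_neg w⟩
      rw [Finset.mem_filter, mem_MF_pr S, hnn]
      refine ⟨⟨g1, hw3.2⟩, ?_⟩
      simp only [Prod.fst_neg]
      push_cast
      rw [abs_neg]
      exact hw2
  have h2 := le_trans (Finset.card_le_card hsub) (Finset.card_union_le _ _)
  have h3 : (Bd.image (fun v => -v)).card ≤ Bd.card := Finset.card_image_le
  have h4 : (((A.MF Y).filter (fun w => ¬ (Y ≤ C * nm 0 D w ∧
      Real.sqrt Y ≤ C * |(w.1 : ℝ)|))).card : ℝ) ≤ Bd.card + Bd.card := by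
    exact_mod_cast le_trans h2 (Nat.add_le_add_left h3 _)
  linarith

end Pool.Agent.AQE
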