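import Pool.Agent.Lib_helper1.AQE.F

/-! # AQE (MP_892e4c_nt): PAIRS ==> LocH, the theorem (helper1) -/

set_option autoImplicit false

namespace Pool.Agent.AQE

open Finset Pool.Agent.MQ Pool.Agent.AQM

theorem nm_neg (D : ℤ) (v : El) : nm 0 D (-v) = nm 0 D v := by
  unfold nm; simp only [Prod.fst_neg, Prod.snd_neg]; ring

theorem dt_neg (v w : El) : dt (-v) (-w) = dt v w := by
  unfold dt; simp only [Prod.fst_neg, Prod.snd_neg]; ring

theorem mem_PSA {D : ℤ} {A : Ang 0 D} {q : ℕ} {V : El → Prop} {x : ℝ} {w : El} :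
    w ∈ PS A q V x ↔ (A.wd w ∧ (nm 0 D w : ℝ) ≤ x) ∧ V w ∧ ∀ l : ℕ, l.Prime → dv l w → l ∣ q := by
  classical
  unfold PS
  rw [Finset.mem_filter]
  unfold Ang0.MF
  rw [Set.Finite.mem_toFinset]
  rfl

theorem pm_of_PS {D : ℤ} {A : Ang 0 D} {M : ℕ} {T : El → Prop} (hT : Cls A M T) {x : ℝ} {w : El}
    (hw : w ∈ PS A M T x) : Pm w := by
  rw [mem_PSA] at hw
  obtain ⟨_, hTw, hl⟩ := hw
  unfold Pm
  by_contra hc
  obtain ⟨l, hl1, hl2⟩ := Nat.exists_prime_and_dvd hc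
  have h1 : (l : ℤ) ∣ w.1 := (Int.natCast_dvd_natCast.2 hl2).trans (Int.gcd_dvd_left _ _)
  have h2 : (l : ℤ) ∣ w.2 := (Int.natCast_dvd_natCast.2 hl2).trans (Int.gcd_dvd_right _ _)
  have h3 := hl l hl1 ⟨h1, h2⟩
  have h4 : (l : ℤ) ∣ nm 0 D w := by
    unfold nm
    exact dvd_add (dvd_add (Dvd.dvd.pow h1 two_ne_zero) (Dvd.dvd.mul_left h2 _))
      (Dvd.dvd.mul_left (Dvd.dvd.pow h2 two_ne_zero) _)
  have h5 := hT.cop w hTw
  have h6 : (l : ℤ) ∣ (Int.gcd (nm 0 D w) M : ℤ) :=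
    Int.dvd_coe_gcd h4 (Int.natCast_dvd_natCast.2 h3)
  rw [h5] at h6
  have h7 : l ∣ 1 := by exact_mod_cast h6
  exact hl1.one_lt.ne' (Nat.dvd_one.1 h7)

/-- two elements of the upper half plane whose first coordinates have different signs -/
theorem opp_sign {v w : El} {C Y H : ℝ} (hC : 0 < C) (hv2 : 0 ≤ v.2) (hw2 : 0 ≤ w.2)
    (hv : Real.sqrt Y ≤ C * |(v.1 : ℝ)|) (hw : Real.sqrt Y ≤ C * |(w.1 : ℝ)|)
    (hd : 0 < dt v w) (hdH : (dt v w : ℝ) ≤ H) (hY : C * H < Real.sqrt Y)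
    (hs : v.1 * w.1 < 0) : False := by
  have hv1 : (0 : ℝ) ≤ v.2 := by exact_mod_cast hv2
  have hw1 : (0 : ℝ) ≤ w.2 := by exact_mod_cast hw2
  rcases lt_trichotomy v.1 0 with h | h | h
  · have h' : 0 < w.1 := by
      by_contra hc
      push Not at hc
      nlinarith
    unfold dt at hd
    nlinarith
  · rw [h] at hs; simp at hs
  · have h' : w.1 < 0 := by
      by_contra hc
      push Not at hc
      nlinarith
    -- one of the second coordinates is positive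
    have hpos : 1 ≤ v.2 + w.2 := by
      by_contra hc
      push Not at hc
      have e1 : v.2 = 0 := by omega
      have e2 : w.2 = 0 := by omega
      unfold dt at hd
      rw [e1, e2] at hd
      simp at hd
    have hr : (0 : ℝ) < v.1 := by exact_mod_cast h
    have hr' : (w.1 : ℝ) < 0 := by exact_mod_cast h'
    rw [abs_of_pos hr] at hv
    rw [abs_of_neg hr'] at hw
    have hpos' : (1 : ℝ) ≤ v.2 + w.2 := by exact_mod_cast hpos
    have e : (dt v w : ℝ) = v.1 * w.2 + v.2 * (-w.1) := by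
      unfold dt; push_cast; ring
    have h1 : C * (dt v w : ℝ) ≤ C * H := mul_le_mul_of_nonneg_left hdH hC.le
    have h2 : C * (dt v w : ℝ) = (C * v.1) * w.2 + v.2 * (C * -w.1) := by rw [e]; ring
    have h3 : Real.sqrt Y * w.2 ≤ (C * v.1) * w.2 := mul_le_mul_of_nonneg_right hv hw1
    have h4 : (v.2 : ℝ) * Real.sqrt Y ≤ v.2 * (C * -w.1) := mul_le_mul_of_nonneg_left hw hv1
    have h5 : 0 ≤ Real.sqrt Y := Real.sqrt_nonneg _
    nlinarith

theorem locH_of_pairs {D : ℤ} {A : Ang 0 D} {S : Sys 0 D} {μ : ℕ} (hc : Cov A S μ)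
    (hS : ∀ v, S.wd v → 0 ≤ v.2) {R : ℕ} {χ : ℕ → ℤ} {M : ℕ} {T : El → Prop} (hT : Cls A M T)
    (hcop : ∀ v, T v → IsCoprime v.1 (R : ℤ))
    (hχ : ∀ v w, T v → T w → 0 < v.1 * w.1 → χ v.1.natAbs = χ w.1.natAbs) {ε H : ℝ}
    (hε : 0 < ε) (hH : 1 ≤ H) : ∃ C H' δ Y₁ : ℝ, 0 < C ∧ 0 < H' ∧ 0 < δ ∧ ∀ h : ℕ → ℤ, Sgn h →
      ∀ Y : ℝ, Y₁ ≤ Y → PairsAt D R χ h C H' δ Y → ∃ F : ℝ → ℝ, LocH A h M T Y H ε F := by
  classical
  obtain ⟨K, hK, hfew⟩ := cov_few hc
  obtain ⟨K₂, hK₂, hrg⟩ := rg_of_wd S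
  have hμ1 : (1 : ℝ) ≤ μ := by exact_mod_cast hc.1
  have hμ0 : (0 : ℝ) < μ := by linarith
  have hc1 := S.c₁_pos
  set C : ℝ := max K₂ (8 * K / ε) with hCdef
  have hC1 : 1 ≤ C := le_trans hK₂ (le_max_left _ _)
  have hC0 : 0 < C := by linarith
  have hCε : 8 * K / ε ≤ C := le_max_right _ _
  set H' : ℝ := 4 * μ * H / S.c₁ with hH'
  have hH'0 : 0 < H' := by positivity
  set Y₁ : ℝ := max (max (4 * μ * H) (2 * μ * S.r * H)) (max ((8 * K / ε) ^ 2)
    ((C * H' + 1) ^ 2)) with hY₁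
  refine ⟨C, H', ε / 8, Y₁, hC0, hH'0, by positivity, ?_⟩
  intro h hh Y hY hP
  have y1 : 4 * μ * H ≤ Y := le_trans (le_trans (le_max_left _ _) (le_max_left _ _)) hY
  have y2 : 2 * μ * S.r * H ≤ Y := le_trans (le_trans (le_max_right _ _) (le_max_left _ _)) hY
  have y3 : (8 * K / ε) ^ 2 ≤ Y := le_trans (le_trans (le_max_left _ _) (le_max_right _ _)) hY
  have y4 : (C * H' + 1) ^ 2 ≤ Y := le_trans (le_trans (le_max_right _ _) (le_max_right _ _)) hY
  have hμH : 1 ≤ μ * H := by nlinarith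
  have hY1 : 1 ≤ Y := by nlinarith
  have hY0 : 0 < Y := by linarith
  have hs3 : 8 * K / ε ≤ Real.sqrt Y := by
    rw [Real.le_sqrt' (by positivity)]; exact y3
  have hs4 : C * H' + 1 ≤ Real.sqrt Y := by
    rw [Real.le_sqrt' (by positivity)]; exact y4
  have hss : Real.sqrt Y * Real.sqrt Y = Y := Real.mul_self_sqrt hY0.le
  -- the number of arcs
  set n : ℕ := ⌊Y / (2 * μ * H)⌋₊ with hn
  have hq : 2 ≤ Y / (2 * μ * H) := by
    rw [le_div_iff₀ (by positivity)]; linarith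
  have hn1 : 1 ≤ n := by
    rw [hn]; apply Nat.le_floor; push_cast; linarith
  have hnle : (n : ℝ) ≤ Y / (2 * μ * H) := Nat.floor_le (by positivity)
  have hnge : Y / (4 * μ * H) ≤ n := by
    have h1 : Y / (2 * μ * H) < n + 1 := Nat.lt_floor_add_one _
    have h2 : Y / (2 * μ * H) = 2 * (Y / (4 * μ * H)) := by field_simp; norm_num
    rw [h2] at h1 hq
    linarith
  have hn0 : (0 : ℝ) < n := by exact_mod_cast hn1
  have hdle : Y / (S.c₁ * n) ≤ H' := by
    rw [div_le_iff₀ (by positivity), hH']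
    have h1 : 4 * μ * H / S.c₁ * (S.c₁ * n) = 4 * μ * H * n := by field_simp
    rw [h1]
    have h2 := hnge
    rw [div_le_iff₀ (by positivity)] at h2
    linarith
  set J := muJ S μ n with hJ
  have hJcard : (J.card : ℝ) ≤ Y / H := by
    have h1 : (J.card : ℝ) ≤ (S.r + n) * μ := by exact_mod_cast muJ_card S μ n
    have h2 : (n : ℝ) * μ ≤ Y / (2 * H) := by
      calc (n : ℝ) * μ ≤ Y / (2 * μ * H) * μ := mul_le_mul_of_nonneg_right hnle hμ0.le
        _ = Y / (2 * H) := by field_simp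
    have h3 : (S.r : ℝ) * μ ≤ Y / (2 * H) := by
      rw [le_div_iff₀ (by positivity)]
      linarith
    have h4 : Y / (2 * H) + Y / (2 * H) = Y / H := by field_simp; norm_num
    nlinarith
  set P := PS A M T Y with hPdef
  set P₁ := P.filter (fun w => Y ≤ C * nm 0 D w ∧ Real.sqrt Y ≤ C * |(w.1 : ℝ)|) with hP₁
  have hPm : ∀ w ∈ P, Pm w := fun w hw => pm_of_PS hT hw
  have hPw : ∀ w ∈ P, (A.wd w ∧ (nm 0 D w : ℝ) ≤ Y) ∧ T w := fun w hw =>
    ⟨(mem_PSA.1 hw).1, (mem_PSA.1 hw).2.1⟩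
  have hsub : P₁ ⊆ P := Finset.filter_subset _ _
  have hE₁ : ((P \ P₁).card : ℝ) ≤ ε / 4 * Y := by
    have h1 : P \ P₁ ⊆ (A.MF Y).filter (fun w => ¬ (Y ≤ C * nm 0 D w ∧
        Real.sqrt Y ≤ C * |(w.1 : ℝ)|)) := by
      intro w hw
      rw [Finset.mem_sdiff, hP₁, Finset.mem_filter] at hw
      rw [Finset.mem_filter]
      refine ⟨?_, fun hcon => hw.2 ⟨hw.1, hcon⟩⟩
      unfold Ang0.MF
      rw [Set.Finite.mem_toFinset]
      exact (hPw w hw.1).1
    have h2 := hfew C Y hC1 hY1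
    have h3 : ((P \ P₁).card : ℝ) ≤ K * (Y / C + Real.sqrt Y) := by
      refine le_trans ?_ h2
      exact_mod_cast Finset.card_le_card h1
    have h4 : K * (Y / C) ≤ ε / 8 * Y := by
      rw [div_le_iff₀ hε] at hCε
      have h5 : K * (Y / C) = K * Y / C := by ring
      rw [h5, div_le_iff₀ hC0]
      nlinarith
    have h6 : K * Real.sqrt Y ≤ ε / 8 * Y := by
      rw [div_le_iff₀ hε] at hs3
      have h7 : 0 ≤ Real.sqrt Y := Real.sqrt_nonneg _
      nlinarith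
    nlinarith
  -- the bad pairs
  have hE₂ : ((badP P₁ A.u (gg 0 D h) J H').card : ℝ) ≤ 2 * (ε / 8 * Y) := by
    set Bp := badP P₁ A.u (gg 0 D h) J H' with hBp
    -- the region
    have hreg : ∀ z ∈ Bp, (0 < z.1.1 ∧ 0 < z.2.1 ∧ Rg D C Y z.1 ∧ Rg D C Y z.2) ∨
        (z.1.1 < 0 ∧ z.2.1 < 0 ∧ Rg D C Y (-z.1) ∧ Rg D C Y (-z.2)) := by
      intro z hz
      rw [hBp, badP, Finset.mem_filter, Finset.mem_product] at hz
      obtain ⟨⟨z1, z2⟩, hd, hdH, hne, hj⟩ := hz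
      rw [hP₁, Finset.mem_filter] at z1 z2
      obtain ⟨z1P, z1a, z1b⟩ := z1
      obtain ⟨z2P, z2a, z2b⟩ := z2
      obtain ⟨⟨w1, n1⟩, _⟩ := hPw _ z1P
      obtain ⟨⟨w2, n2⟩, _⟩ := hPw _ z2P
      have hKC : K₂ ≤ C := le_max_left _ _
      have hCY : C * H' < Real.sqrt Y := by linarith
      obtain ⟨_, hsh⟩ := cov_arc hc hn1 w1 w2 n1 n2 hj
      rcases hsh with ⟨s1, s2⟩ | ⟨s1, s2⟩
      · have r1 := hrg C Y hKC hY1 z.1 s1 n1 z1a z1b
        have r2 := hrg C Y hKC hY1 z.2 s2 n2 z2a z2b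
        rcases r1 with ⟨p1, r1⟩ | ⟨p1, r1⟩ <;> rcases r2 with ⟨p2, r2⟩ | ⟨p2, r2⟩
        · exact Or.inl ⟨p1, p2, r1, r2⟩
        · exact (opp_sign hC0 (hS _ s1) (hS _ s2) z1b z2b hd hdH hCY (by nlinarith)).elim
        · exact (opp_sign hC0 (hS _ s1) (hS _ s2) z1b z2b hd hdH hCY (by nlinarith)).elim
        · exact Or.inr ⟨p1, p2, r1, r2⟩
      · have hab : ∀ v : El, |((-v).1 : ℝ)| = |(v.1 : ℝ)| := by
          intro v; simp only [Prod.fst_neg]; push_cast; rw [abs_neg]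
        have r1 := hrg C Y hKC hY1 (-z.1) s1 (by rw [nm_neg]; exact n1) (by rw [nm_neg]; exact z1a)
          (by rw [hab]; exact z1b)
        have r2 := hrg C Y hKC hY1 (-z.2) s2 (by rw [nm_neg]; exact n2) (by rw [nm_neg]; exact z2a)
          (by rw [hab]; exact z2b)
        rw [neg_neg] at r1 r2
        simp only [Prod.fst_neg, Left.neg_pos_iff, Left.neg_neg_iff] at r1 r2
        have o1 : ((-z.1 : El).1) * ((-z.2 : El).1) = z.1.1 * z.2.1 := by
          simp only [Prod.fst_neg]; ring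
        rcases r1 with ⟨p1, r1⟩ | ⟨p1, r1⟩ <;> rcases r2 with ⟨p2, r2⟩ | ⟨p2, r2⟩
        · exact Or.inr ⟨p1, p2, r1, r2⟩
        · exact (opp_sign hC0 (hS _ s1) (hS _ s2) (by rw [hab]; exact z1b) (by rw [hab]; exact z2b)
            (by rw [dt_neg]; exact hd) (by rw [dt_neg]; exact hdH) hCY
            (by rw [o1]; nlinarith)).elim
        · exact (opp_sign hC0 (hS _ s1) (hS _ s2) (by rw [hab]; exact z1b) (by rw [hab]; exact z2b)
            (by rw [dt_neg]; exact hd) (by rw [dt_neg]; exact hdH) hCY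
            (by rw [o1]; nlinarith)).elim
        · exact Or.inl ⟨p1, p2, r1, r2⟩
    set B₁ := Bp.filter (fun z => 0 < z.1.1) with hB₁
    set B₂ := Bp.filter (fun z => ¬ 0 < z.1.1) with hB₂
    have hsplit : Bp.card = B₁.card + B₂.card := by
      rw [hB₁, hB₂, Finset.card_filter_add_card_filter_not]
    have hcopP : ∀ w ∈ P, IsCoprime w.1 w.2 := fun w hw =>
      Int.isCoprime_iff_gcd_eq_one.2 (hPm w hw)
    have h1 : (B₁.card : ℝ) ≤ ε / 8 * Y := by
      apply hP B₁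
      intro z hz
      rw [hB₁, Finset.mem_filter] at hz
      obtain ⟨hz, hz0⟩ := hz
      rcases hreg z hz with ⟨p1, p2, r1, r2⟩ | ⟨p1, _⟩
      · rw [hBp, badP, Finset.mem_filter, Finset.mem_product] at hz
        obtain ⟨⟨z1, z2⟩, hd, hdH, hne, hj⟩ := hz
        have z1 := hsub z1
        have z2 := hsub z2
        exact ⟨r1, r2, hcopP _ z1, hcopP _ z2, hcop _ (hPw _ z1).2, hcop _ (hPw _ z2).2,
          hχ _ _ (hPw _ z1).2 (hPw _ z2).2 (mul_pos p1 p2), hd, hdH, hne⟩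
      · exact absurd hz0 (by omega)
    have h2 : (B₂.card : ℝ) ≤ ε / 8 * Y := by
      have hinj : Function.Injective (fun z : El × El => (-z.1, -z.2)) := by
        intro z z' hzz
        have e1 := congrArg Prod.fst hzz
        have e2 := congrArg Prod.snd hzz
        simp only [neg_inj] at e1 e2
        exact Prod.ext e1 e2
      rw [← Finset.card_image_of_injective B₂ hinj]
      apply hP
      intro z' hz'
      rw [Finset.mem_image] at hz'
      obtain ⟨z, hz, rfl⟩ := hz'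
      rw [hB₂, Finset.mem_filter] at hz
      obtain ⟨hz, hz0⟩ := hz
      rcases hreg z hz with ⟨p1, _⟩ | ⟨p1, p2, r1, r2⟩
      · exact absurd p1 hz0
      · rw [hBp, badP, Finset.mem_filter, Finset.mem_product] at hz
        obtain ⟨⟨z1, z2⟩, hd, hdH, hne, hj⟩ := hz
        have z1 := hsub z1
        have z2 := hsub z2
        refine ⟨r1, r2, ?_, ?_, ?_, ?_, ?_, ?_, ?_, ?_⟩
        · simp only [Prod.fst_neg, Prod.snd_neg]
          exact IsCoprime.neg_neg (hcopP _ z1)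
        · simp only [Prod.fst_neg, Prod.snd_neg]
          exact IsCoprime.neg_neg (hcopP _ z2)
        · simp only [Prod.fst_neg]
          exact IsCoprime.neg_left (hcop _ (hPw _ z1).2)
        · simp only [Prod.fst_neg]
          exact IsCoprime.neg_left (hcop _ (hPw _ z2).2)
        · simp only [Prod.fst_neg, Int.natAbs_neg]
          exact hχ _ _ (hPw _ z1).2 (hPw _ z2).2 (mul_pos_of_neg_of_neg p1 p2)
        · change 0 < dt (-z.1) (-z.2)
          rw [dt_neg]; exact hd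
        · change ((dt (-z.1) (-z.2) : ℤ) : ℝ) ≤ H'
          rw [dt_neg]; exact hdH
        · change h (nm 0 D (-z.1)).natAbs ≠ h (nm 0 D (-z.2)).natAbs
          rw [nm_neg, nm_neg]; exact hne
    rw [hsplit]
    push_cast
    linarith
  have hgpm : ∀ m ∈ P, gg 0 D h m = 1 ∨ gg 0 D h m = -1 := by
    intro m hm
    have h1 := A.wd_nm m (hPw m hm).1.1
    exact hh.pm _ (Int.natAbs_pos.2 h1.ne')
  obtain ⟨F, f1, f2, f3, f4, f5⟩ := step_of_pairs hsub (u := A.u) (g := gg 0 D h) (J := J)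
    (muJ_zero S hc.1) (fun m hm => cov_range hc (hPw m hm).1.1) hgpm (H := H')
    (by
      intro v hv w hw hj
      have hv' := hPw v (hsub hv)
      have hw' := hPw w (hsub hw)
      exact le_trans (cov_arc hc hn1 hv'.1.1 hw'.1.1 hv'.1.2 hw'.1.2 hj).1 hdle)
    (by
      intro v hv w hw hj hd
      have hv' := hPw v (hsub hv)
      have hw' := hPw w (hsub hw)
      rcases A.par v w hv'.1.1 hw'.1.1 (hPm v (hsub hv)) (hPm w (hsub hw)) hd with e | e
      · rw [e]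
      · rw [e]
        unfold gg
        rw [nm_neg]) hE₁ hE₂
  refine ⟨F, f1, f2, f3, ⟨J, hJcard, f4⟩, ?_⟩
  refine le_trans f5 ?_
  nlinarith

end Pool.Agent.AQE
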