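import Pool.Agent.Lib_helper39.MQX.SYP
import Pool.Agent.Lib_helper39.MQX.SYN

/-!
# AQE (MP_892e4c_nt): systems whose units are `± 1` modulo `M` (helper1; `sys_of_pell` is helper39's
`sys_pos_pr` with the representative made explicit)
-/

set_option autoImplicit false

namespace Pool.Agent.MQ

open Filter Topology MeasureTheory

theorem sys_of_pell {b c : ℤ} (P : syp_D b c) (hD : 0 < dsc b c) :
    ∃ S : Sys b c, ∀ v, S.rp v = P.rp v := by
  have hPs := P.s_pos
  have hh := syp_h_gt P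
  have h0 : 0 < P.h := by linarith
  have hL := syp_logE P
  have hY := syp_Yr P
  -- the chain
  have hge : Int.gcd P.eta.1 P.eta.2 = 1 := by
    have h1 := syp_nm_eta P
    have h2 : ((Int.gcd P.eta.1 P.eta.2 : ℕ) : ℤ) ∣ 1 := by
      rw [← h1]
      unfold nm
      have d1 : ((Int.gcd P.eta.1 P.eta.2 : ℕ) : ℤ) ∣ P.eta.1 := Int.gcd_dvd_left ..
      have d2 : ((Int.gcd P.eta.1 P.eta.2 : ℕ) : ℤ) ∣ P.eta.2 := Int.gcd_dvd_right ..
      refine dvd_add (dvd_add (Dvd.dvd.pow d1 two_ne_zero) (Dvd.dvd.mul_left d2 _))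
        (Dvd.dvd.mul_left (Dvd.dvd.pow d2 two_ne_zero) _)
    have := Int.natCast_dvd_natCast.1
      (by exact_mod_cast h2 : ((Int.gcd P.eta.1 P.eta.2 : ℕ) : ℤ) ∣ ((1 : ℕ) : ℤ))
    exact Nat.dvd_one.1 this
  have he2 : 0 < P.eta.2 := by
    have := P.Y_pos
    unfold syp_D.eta
    simp only
    linarith
  obtain ⟨r, e, hr, e0, er, ed, ew⟩ := syp_chain P.eta.2.toNat P.eta
    (Int.toNat_of_nonneg he2.le).symm (by omega) hge
  have ew' : ∀ v : El, P.W v ↔ ∃ i s t : ℕ, i < r ∧ 1 ≤ s ∧ v = cn e i s t := by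
    intro v; rw [syp_W_iff]; exact ew v
  -- the elements of the chain
  have ei : ∀ i, i < r → P.W (e i) := by
    intro i hi
    rw [ew']
    refine ⟨i, 1, 0, hi, le_refl _, ?_⟩
    unfold cn; simp
  have ei' : ∀ i, i ≤ r → 0 < P.a' (e i) ∧ P.a' (e i) ≤ P.a (e i) ∧
      P.a (e i) ≤ P.h ^ 2 * P.a' (e i) := by
    intro i hi
    rcases hi.lt_or_eq with h | h
    · obtain ⟨h1, h2, h3⟩ := ei i h
      exact ⟨h1, h2, h3.le⟩
    · subst h
      rw [er, syp_a_eta, syp_a'_eta]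
      refine ⟨inv_pos.2 h0, ?_, ?_⟩
      · rw [inv_le_iff_one_le_mul₀ h0]; nlinarith
      · apply le_of_eq; field_simp
  -- elements of closed cones
  have ec : ∀ i s t : ℕ, i < r → 1 ≤ s + t → 0 < P.a' (cn e i s t) ∧
      P.a' (cn e i s t) ≤ P.a (cn e i s t) ∧
      P.a (cn e i s t) ≤ P.h ^ 2 * P.a' (cn e i s t) := by
    intro i s t hi hst
    obtain ⟨a1, a2, a3⟩ := ei' i hi.le
    obtain ⟨b1, b2, b3⟩ := ei' (i + 1) hi
    rw [syp_cn, syp_cn']
    have hs0 : (0 : ℝ) ≤ s := by positivity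
    have ht0 : (0 : ℝ) ≤ t := by positivity
    refine ⟨?_, ?_, ?_⟩
    · rcases Nat.eq_zero_or_pos s with h | h
      · have h2 : (0 : ℝ) < t := by exact_mod_cast (by omega : 0 < t)
        have := mul_pos h2 b1
        have := mul_nonneg hs0 a1.le
        linarith
      · have h2 : (0 : ℝ) < s := by exact_mod_cast h
        have := mul_pos h2 a1
        have := mul_nonneg ht0 b1.le
        linarith
    · exact add_le_add (mul_le_mul_of_nonneg_left a2 hs0) (mul_le_mul_of_nonneg_left b2 ht0)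
    · calc _ ≤ (s : ℝ) * (P.h ^ 2 * P.a' (e i)) + t * (P.h ^ 2 * P.a' (e (i + 1))) :=
            add_le_add (mul_le_mul_of_nonneg_left a3 hs0) (mul_le_mul_of_nonneg_left b3 ht0)
        _ = _ := by ring
  have nmpos : ∀ v : El, 0 < P.a' v → P.a' v ≤ P.a v → 0 < nm b c v := by
    intro v h1 h2
    have h3 : (0 : ℝ) < nm b c v := by
      rw [syp_nm P]
      have : 0 < P.a v := by linarith
      positivity
    exact_mod_cast h3
  refine ⟨{ lam := P.lam, κ := P.s / Real.log (P.h ^ 2), ur := P.ur, rp := P.rp, r := r, e := e,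
            c₁ := 2 * P.s / (P.h + 1) / Real.log (P.h ^ 2), c₂ := P.s / Real.log (P.h ^ 2),
            κ_pos := by positivity, c₁_pos := by positivity, c₂_pos := by positivity,
            pos := ?_, der := ?_, top := syp_top P, botN := ?_, botP := ?_, rp_wd := ?_,
            rp_self := ?_, rp_unit := ?_, r_pos := hr, e_zero := e0, e_last := ?_, e_det := ed,
            e_nm := ?_, e_ac := ?_, e_wd := ?_, u_hom := ?_, u_det := ?_ }, fun v => rfl⟩
  · intro t ht
    have ht' : P.lam ≤ t := by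
      rcases ht with h | h
      · omega
      · exact h
    have h1 := syp_lam P t ht'
    have h4 : (t ^ 2 + b * t + c) = (2 * t + b + P.s) * (2 * t + b - P.s) / 4 := by
      linear_combination P.s_sq / 4
    rw [h4]
    have h2 : 0 < 2 * t + b - P.s := by linarith
    have h3 : 0 < 2 * t + b + P.s := by linarith
    positivity
  · intro t ht
    have ht' : P.lam ≤ t := by
      rcases ht with h | h
      · omega
      · exact h.le
    exact syp_der P t ht'
  · intro h; omega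
  · intro _
    exact ⟨(syp_der P P.lam le_rfl).continuousAt.continuousWithinAt, syp_ur_lam P⟩
  · intro v hv
    rw [syp_wdw P hD]
    exact (syp_rp P hv).1
  · intro v hv
    rw [syp_wdw P hD] at hv
    apply syp_rp_eq P (o := (1, 0)) (syp_W_nm P hv) _ hv
    · rw [ml_comm, ml_one]
    · refine ⟨by unfold nm; simp, 0, Or.inl ?_⟩
      rw [zpow_zero]; exact syp_a_one b P.s
  · intro v hv
    obtain ⟨h1, o, h2, h3⟩ := syp_rp P hv
    refine ⟨o, h2.1, ?_, h3⟩
    intro z hz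
    have hz' : 0 < nm b c (ml b c o z) := by rw [syp_G_nm P h2]; exact hz
    obtain ⟨k1, o', k2, k3⟩ := syp_rp P hz'
    symm
    apply syp_rp_eq P hz (syp_G_ml P k2 h2) k1
    rw [k3, ml_assoc]
  · refine ⟨by rw [er, syp_nm_eta], ?_⟩
    rw [er]
    have h1 := ei' r le_rfl
    rw [er] at h1
    rw [syp_uu P _ h1.1 h1.2.1]
    unfold syp_D.U
    rw [syp_a_eta, syp_a'_eta, div_inv_eq_mul, ← sq, div_self hL.ne']
  · intro i hi
    obtain ⟨h1, h2, _⟩ := ei' i hi
    exact nmpos _ h1 h2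
  · intro i hi
    obtain ⟨a1, a2, a3⟩ := ei' i hi.le
    obtain ⟨b1, b2, b3⟩ := ei' (i + 1) hi
    have h1 : ((nm b c (cn e i 1 1) - nm b c (e i) - nm b c (e (i + 1)) : ℤ) : ℝ) =
        P.a (e i) * P.a' (e (i + 1)) + P.a' (e i) * P.a (e (i + 1)) := by
      push_cast
      rw [syp_nm P, syp_nm P, syp_nm P, syp_cn, syp_cn']
      push_cast
      ring
    have h2 : (0 : ℝ) < ((nm b c (cn e i 1 1) - nm b c (e i) - nm b c (e (i + 1)) : ℤ) : ℝ) := by
      rw [h1]
      have a4 : 0 < P.a (e i) := by linarith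
      have b4 : 0 < P.a (e (i + 1)) := by linarith
      positivity
    exact_mod_cast h2
  · intro v
    rw [syp_wdw P hD]
    exact ew' v
  · intro v w hv hw
    rw [syp_wdw P hD] at hv hw
    have hvw : 0 < nm b c (ml b c v w) := by
      rw [nm_ml]; exact mul_pos (syp_W_nm P hv) (syp_W_nm P hw)
    obtain ⟨h1, o, ⟨g1, k, g2⟩, h3⟩ := syp_rp P hvw
    obtain ⟨v1, v2, v3⟩ := hv
    obtain ⟨w1, w2, w3⟩ := hw
    have v4 : 0 < P.a v := by linarith
    have w4 : 0 < P.a w := by linarith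
    refine ⟨k, ?_⟩
    rw [syp_uu P _ h1.1 h1.2.1, syp_uu P _ v1 v2, syp_uu P _ w1 w2, h3]
    have hk : 0 < P.h ^ k := zpow_pos h0 k
    have hoo : P.a o * P.a' o = 1 := by rw [← syp_nm, g1]; simp
    have e1 : P.a o / P.a' o = (P.h ^ 2) ^ k := by
      have h5 : P.a' o = (P.a o)⁻¹ := eq_inv_of_mul_eq_one_right hoo
      rw [h5, div_inv_eq_mul, sq, mul_zpow]
      rcases g2 with g2 | g2 <;> rw [g2]
      ring
    have e2 : P.a (ml b c o (ml b c v w)) / P.a' (ml b c o (ml b c v w)) =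
        (P.h ^ 2) ^ k * (P.a v / P.a' v) * (P.a w / P.a' w) := by
      rw [syp_ml, syp_ml, syp_ml', syp_ml', ← e1]
      have : P.a' o ≠ 0 := fun h => by rw [h, mul_zero] at hoo; exact zero_ne_one hoo
      field_simp
    unfold syp_D.U
    rw [e2, Real.log_mul (by positivity) (by positivity),
      Real.log_mul (by positivity) (by positivity), Real.log_zpow]
    field_simp
    ring
  · intro i s t s' t' hi hd
    have hst : 1 ≤ s + t := by
      by_contra hc
      have h1 : s = 0 := by omega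
      have h2 : t = 0 := by omega
      subst h1; subst h2
      rw [dt_cn] at hd
      simp at hd
    have hst' : 1 ≤ s' + t' := by
      by_contra hc
      have h1 : s' = 0 := by omega
      have h2 : t' = 0 := by omega
      subst h1; subst h2
      rw [dt_cn] at hd
      simp at hd
    obtain ⟨a1, a2, a3⟩ := ec i s t hi hst
    obtain ⟨b1, b2, b3⟩ := ec i s' t' hi hst'
    rw [syp_uu P _ a1 a2, syp_uu P _ b1 b2]
    exact syp_U_diff P a1 a2 a3 b1 b2 b3 hd

/-- the units of the group are the powers of `eta`, up to the sign -/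
theorem syp_G_eta {b c : ℤ} (P : syp_D b c) {M : ℤ} (h1 : M ∣ P.eta.1 - 1) (h2 : M ∣ P.eta.2)
    {o : El} (ho : P.G o) : (M ∣ o.1 - 1 ∧ M ∣ o.2) ∨ (M ∣ o.1 + 1 ∧ M ∣ o.2) := by
  have hh : P.h ≠ 0 := by have := syp_h_gt P; positivity
  -- powers of `eta`
  have hpow : ∀ n : ℕ, ∃ w : El, nm b c w = 1 ∧ P.a w = P.h ^ n ∧ M ∣ w.1 - 1 ∧ M ∣ w.2 := by
    intro n
    induction n with
    | zero =>
      refine ⟨(1, 0), by unfold nm; simp, by rw [pow_zero]; exact syp_a_one b P.s, ?_, ?_⟩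
      · simp
      · simp
    | succ n ih =>
      obtain ⟨w, w1, w2, w3, w4⟩ := ih
      refine ⟨ml b c P.eta w, by rw [nm_ml, w1, syp_nm_eta]; rfl, by
        rw [syp_ml, w2, syp_a_eta, pow_succ]; ring, ?_, ?_⟩
      · obtain ⟨x, hx⟩ := h1
        obtain ⟨y, hy⟩ := h2
        obtain ⟨z, hz⟩ := w3
        obtain ⟨t, ht⟩ := w4
        have e1 : P.eta.1 = M * x + 1 := by linarith
        have e2 : w.1 = M * z + 1 := by linarith
        unfold ml
        simp only
        rw [e1, e2, hy, ht]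
        exact ⟨M * x * z + x + z - c * y * (M * t), by ring⟩
      · unfold ml
        simp only
        exact dvd_add (dvd_add (Dvd.dvd.mul_left w4 _) (Dvd.dvd.mul_right h2 _))
          (Dvd.dvd.mul_left w4 _)
  have hzpow : ∀ k : ℤ, ∃ w : El, nm b c w = 1 ∧ P.a w = P.h ^ k ∧ M ∣ w.1 - 1 ∧ M ∣ w.2 := by
    intro k
    obtain ⟨n, rfl | rfl⟩ := k.eq_nat_or_neg
    · obtain ⟨w, w1, w2, w3, w4⟩ := hpow n
      exact ⟨w, w1, by rw [w2, zpow_natCast], w3, w4⟩
    · obtain ⟨w, w1, w2, w3, w4⟩ := hpow n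
      refine ⟨cj b w, by rw [nm_cj, w1], ?_, ?_, ?_⟩
      · rw [syp_cj, zpow_neg, zpow_natCast, ← w2]
        apply eq_inv_of_mul_eq_one_right
        rw [← syp_nm, w1]; simp
      · unfold cj
        simp only
        have : w.1 + b * w.2 - 1 = (w.1 - 1) + b * w.2 := by ring
        rw [this]
        exact dvd_add w3 (Dvd.dvd.mul_left w4 _)
      · unfold cj
        simp only
        exact (dvd_neg).2 w4
  obtain ⟨g1, k, g2⟩ := ho
  obtain ⟨w, w1, w2, w3, w4⟩ := hzpow k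
  -- an element of norm one is determined by its first embedding
  have huniq : ∀ v v' : El, nm b c v = 1 → nm b c v' = 1 → P.a v = P.a v' → v = v' := by
    intro v v' hv hv' h
    have e1 : P.a v * P.a' v = 1 := by rw [← syp_nm, hv]; simp
    have e2 : P.a v' * P.a' v' = 1 := by rw [← syp_nm, hv']; simp
    have hne : P.a v ≠ 0 := fun h0 => by rw [h0, zero_mul] at e1; exact zero_ne_one e1
    have e3 : P.a' v = P.a' v' := by
      have : P.a v * P.a' v = P.a v * P.a' v' := by rw [e1, h, e2]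
      exact mul_left_cancel₀ hne this
    have s1 := syp_sub P v
    have s2 := syp_sub P v'
    have h2 : (v.2 : ℝ) = v'.2 := by
      have : P.s * v.2 = P.s * v'.2 := by rw [← s1, ← s2, h, e3]
      exact mul_left_cancel₀ P.s_pos.ne' this
    have h3 : v.2 = v'.2 := by exact_mod_cast h2
    have h4 : (v.1 : ℝ) = v'.1 := by
      have a1 : P.a v = v.1 + v.2 * ((b + P.s) / 2) := rfl
      have a2 : P.a v' = v'.1 + v'.2 * ((b + P.s) / 2) := rfl
      rw [a1, a2, h2] at h
      linarith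
    exact Prod.ext (by exact_mod_cast h4) h3
  rcases g2 with g2 | g2
  · left
    have := huniq o w g1 w1 (by rw [g2, w2])
    rw [this]
    exact ⟨w3, w4⟩
  · right
    have hn : nm b c (-w.1, -w.2) = 1 := by
      rw [← w1]; unfold nm; ring
    have ha : P.a (-w.1, -w.2) = - P.a w := by
      unfold syp_D.a syp_a; push_cast; ring
    have := huniq o (-w.1, -w.2) g1 hn (by rw [g2, ha, w2])
    rw [this]
    simp only
    refine ⟨?_, (dvd_neg).2 w4⟩
    have : -w.1 + 1 = -(w.1 - 1) := by ring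
    rw [this]
    exact (dvd_neg).2 w3

/-- a system for positive discriminant with units `± 1` modulo `M` -/
theorem sys_pos_M (b c : ℤ) (hD : 0 < dsc b c) (hs : ¬ IsSquare (dsc b c)) (M : ℕ) (hM : 1 ≤ M) :
    ∃ S : Sys b c, ∀ v, 0 < nm b c v → ∃ o : El, nm b c o = 1 ∧ S.rp v = ml b c o v ∧
      (((M : ℤ) ∣ o.1 - 1 ∧ (M : ℤ) ∣ o.2) ∨ ((M : ℤ) ∣ o.1 + 1 ∧ (M : ℤ) ∣ o.2)) := by
  have hM0 : (M : ℤ) ≠ 0 := by exact_mod_cast (by omega : M ≠ 0)
  have hDM : 0 < dsc b c * (M : ℤ) ^ 2 := by positivity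
  have hsM : ¬ IsSquare (dsc b c * (M : ℤ) ^ 2) := by
    rintro ⟨t, ht⟩
    apply hs
    have h1 : (M : ℤ) ^ 2 ∣ t ^ 2 := ⟨dsc b c, by rw [sq t, ← ht]; ring⟩
    rw [Int.pow_dvd_pow_iff two_ne_zero] at h1
    obtain ⟨x, rfl⟩ := h1
    refine ⟨x, ?_⟩
    have h2 : (M : ℤ) ^ 2 * dsc b c = (M : ℤ) ^ 2 * (x * x) := by
      linear_combination ht
    exact mul_left_cancel₀ (pow_ne_zero 2 hM0) h2
  obtain ⟨X0, Y0, hXY, hY0⟩ := Pell.exists_of_not_isSquare hDM hsM
  have hDr : (0 : ℝ) < dsc b c := by exact_mod_cast hD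
  have hX0 : X0 ≠ 0 := by
    rintro rfl
    have : 0 ≤ dsc b c * (M : ℤ) ^ 2 * Y0 ^ 2 := by positivity
    linarith
  have hX1 : 1 ≤ |X0| := Int.one_le_abs hX0
  have hY1 : 1 ≤ |Y0| := Int.one_le_abs hY0
  have hXY' : |X0| ^ 2 - dsc b c * (M : ℤ) ^ 2 * |Y0| ^ 2 = 1 := by
    rw [sq_abs, sq_abs]; exact hXY
  let P : syp_D b c :=
    { s := Real.sqrt (dsc b c)
      X := |X0| ^ 2 + dsc b c * (M : ℤ) ^ 2 * |Y0| ^ 2
      Y := 2 * |X0| * ((M : ℤ) * |Y0|)
      s_pos := Real.sqrt_pos.2 hDr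
      s_sq := by rw [Real.sq_sqrt hDr.le]; unfold dsc; push_cast; ring
      X_pos := by
        have : 0 ≤ dsc b c * (M : ℤ) ^ 2 * |Y0| ^ 2 := by positivity
        nlinarith
      Y_pos := by
        have h1 : (1 : ℤ) ≤ M := by exact_mod_cast hM
        have h2 : 1 ≤ (M : ℤ) * |Y0| := by nlinarith
        nlinarith
      pell := by
        have e : b ^ 2 - 4 * c = dsc b c := rfl
        rw [e]
        linear_combination (|X0| ^ 2 - dsc b c * (M : ℤ) ^ 2 * |Y0| ^ 2 + 1) * hXY' }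
  obtain ⟨S, hS⟩ := sys_of_pell P hD
  refine ⟨S, fun v hv => ?_⟩
  obtain ⟨h1, o, h2, h3⟩ := syp_rp P hv
  refine ⟨o, h2.1, by rw [hS, h3], ?_⟩
  apply syp_G_eta P _ _ h2
  · change (M : ℤ) ∣ (|X0| ^ 2 + dsc b c * (M : ℤ) ^ 2 * |Y0| ^ 2) -
      b * (2 * |X0| * ((M : ℤ) * |Y0|)) - 1
    refine ⟨2 * dsc b c * (M : ℤ) * |Y0| ^ 2 - b * (2 * |X0| * |Y0|), ?_⟩
    linear_combination hXY'
  · change (M : ℤ) ∣ 2 * (2 * |X0| * ((M : ℤ) * |Y0|))
    exact ⟨4 * |X0| * |Y0|, by ring⟩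

/-- a system for negative discriminant with units `± 1` -/
theorem sys_neg_M (b c : ℤ) (hD : dsc b c < 0) (M : ℕ) :
    ∃ S : Sys b c, ∀ v, 0 < nm b c v → ∃ o : El, nm b c o = 1 ∧ S.rp v = ml b c o v ∧
      (((M : ℤ) ∣ o.1 - 1 ∧ (M : ℤ) ∣ o.2) ∨ ((M : ℤ) ∣ o.1 + 1 ∧ (M : ℤ) ∣ o.2)) := by
  have hd := syn_d_pos hD
  have hpi := Real.pi_pos
  obtain ⟨J, hJ⟩ : ∃ J : ℕ, |b| < 2 * J := by
    refine ⟨b.natAbs + 1, ?_⟩
    have : |b| = (b.natAbs : ℤ) := (Int.natCast_natAbs b).symm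
    rw [this]
    push_cast
    omega
  refine ⟨{
    lam := 0
    κ := syn_d b c / (2 * Real.pi)
    ur := syn_ur b c
    rp := syn_rp b c
    r := 2 * J + 2
    e := syn_e J
    c₁ := syn_d b c / (2 * Real.pi)
    c₂ := syn_d b c / 4
    κ_pos := by positivity
    c₁_pos := by positivity
    c₂_pos := by positivity
    pos := fun t _ => syn_quad hD t
    der := fun t _ => syn_der hD t
    top := syn_top hD
    botN := fun _ => syn_bot hD
    botP := fun h => absurd hD (not_lt.2 h)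
    rp_wd := fun v hv => syn_rp_wd hD hv
    rp_self := fun v hv => by
      unfold syn_rp
      rw [if_pos hv]
    rp_unit := fun v _ => syn_rp_unit hD v
    r_pos := by omega
    e_zero := by simp [syn_e]
    e_last := by
      constructor
      · simp [syn_e, nm]
      · simp [syn_e, uu]
    e_det := fun i hi => syn_e_det J hi
    e_nm := fun i _ => syn_nm_pos hD (syn_e_ne J i)
    e_ac := fun i hi => syn_e_ac hD hJ hi
    e_wd := fun v => by
      rw [syn_wdw hD]
      exact syn_e_wd J v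
    u_hom := fun v w hv hw => syn_hom hD hv hw
    u_det := fun i s t s' t' hi h => syn_u_det hD hJ hi h }, ?_⟩
  intro v hv
  by_cases h : wdw b c 0 v
  · refine ⟨(1, 0), by simp [nm], ?_, Or.inl ⟨by simp, by simp⟩⟩
    change syn_rp b c v = _
    unfold syn_rp
    rw [if_pos h]
    simp [ml]
  · refine ⟨(-1, 0), by simp [nm], ?_, Or.inr ⟨by simp, by simp⟩⟩
    change syn_rp b c v = _
    unfold syn_rp
    rw [if_neg h]
    simp [ml]

end Pool.Agent.MQ
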