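import Pool.Agent.Lib_helper1.AQE.E
import Pool.Agent.Lib_helper1.AQE.G
import Pool.Agent.Lib_helper1.AQE.SysM
import Pool.Agent.Lib_helper39.AQMF.Z
import Pool.Agent.Lib_helper39.AQMF.AS
import Pool.Agent.Lib_helper39.AQMF.AF2

/-! # AQE (MP_892e4c_nt): the end of AQ (helper1)

`aq_end`: PAIRS (Part I) and `part_two` (Part II) give: `h(|g(t)|) = 1` has positive lower density. -/

set_option autoImplicit false

namespace Pool.Agent.AQE

open Finset Pool.Agent.MQ Pool.Agent.AQM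

/-! ### the systems and the classes -/

theorem sys_unit {b c : ℤ} (hs : ¬ IsSquare (dsc b c)) (hd : 0 < dsc b c) (M : ℕ) (hM : 1 ≤ M) :
    ∃ S : Sys b c, ∀ v, 0 < nm b c v →
      (dv (M : ℤ) (S.rp v - v) ∨ dv (M : ℤ) (S.rp v + v)) := by
  obtain ⟨S, hS⟩ := sys_pos_M b c hd hs M hM
  refine ⟨S, fun v hv => ?_⟩
  obtain ⟨o, h1, h2, h3⟩ := hS v hv
  rw [h2]
  rcases h3 with ⟨⟨x, hx⟩, ⟨y, hy⟩⟩ | ⟨⟨x, hx⟩, ⟨y, hy⟩⟩
  · left
    have e1 : o.1 = (M : ℤ) * x + 1 := by linarith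
    constructor
    · refine ⟨x * v.1 - c * y * v.2, ?_⟩
      simp only [Prod.fst_sub, ml]
      rw [e1, hy]; ring
    · refine ⟨x * v.2 + y * v.1 + b * y * v.2, ?_⟩
      simp only [Prod.snd_sub, ml]
      rw [e1, hy]; ring
  · right
    have e1 : o.1 = (M : ℤ) * x - 1 := by linarith
    constructor
    · refine ⟨x * v.1 - c * y * v.2, ?_⟩
      simp only [Prod.fst_add, ml]
      rw [e1, hy]; ring
    · refine ⟨x * v.2 + y * v.1 + b * y * v.2, ?_⟩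
      simp only [Prod.snd_add, ml]
      rw [e1, hy]; ring

/-- the class of `1` -/
def T₁ (M : ℕ) (v : El) : Prop := dv (M : ℤ) (v - (1, 0))

/-- the classes of `1` and `-1` -/
def T₂ (M : ℕ) (v : El) : Prop := dv (M : ℤ) (v - (1, 0)) ∨ dv (M : ℤ) (v + (1, 0))

theorem T₁_iff {M : ℕ} {v : El} : T₁ M v ↔ ∃ x y : ℤ, v = (1 + M * x, M * y) := by
  unfold T₁ dv
  simp only [Prod.fst_sub, Prod.snd_sub, sub_zero]
  constructor
  · rintro ⟨⟨x, hx⟩, ⟨y, hy⟩⟩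
    exact ⟨x, y, Prod.ext (by simp only; linarith) hy⟩
  · rintro ⟨x, y, rfl⟩
    exact ⟨⟨x, by simp only; ring⟩, ⟨y, rfl⟩⟩

theorem T₂_iff {M : ℕ} {v : El} : T₂ M v ↔ T₁ M v ∨ T₁ M (-v) := by
  unfold T₂ T₁
  have : dv (M : ℤ) (-v - (1, 0)) ↔ dv (M : ℤ) (v + (1, 0)) := by
    unfold dv
    simp only [Prod.fst_sub, Prod.snd_sub, Prod.fst_neg, Prod.snd_neg, Prod.fst_add, Prod.snd_add,
      sub_zero, add_zero]
    rw [show -v.1 - 1 = -(v.1 + 1) by ring, dvd_neg, dvd_neg]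
  rw [this]

theorem T₁_mul {D : ℤ} {M : ℕ} {v w : El} (hv : T₁ M v) (hw : T₁ M w) : T₁ M (ml 0 D v w) := by
  obtain ⟨x, y, rfl⟩ := T₁_iff.1 hv
  obtain ⟨x', y', rfl⟩ := T₁_iff.1 hw
  rw [T₁_iff]
  refine ⟨x + x' + M * x * x' - D * M * y * y', y + y' + M * x * y' + M * y * x', ?_⟩
  unfold ml
  simp only
  refine Prod.ext ?_ ?_
  · simp only; ring
  · simp only; ring

theorem T₁_div {D : ℤ} {M : ℕ} {v w : El} (hv : T₁ M v) (hw : T₁ M (ml 0 D v w)) : T₁ M w := by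
  obtain ⟨x, y, rfl⟩ := T₁_iff.1 hv
  obtain ⟨x', y', hxy⟩ := T₁_iff.1 hw
  have h1 := congrArg Prod.fst hxy
  have h2 := congrArg Prod.snd hxy
  unfold ml at h1 h2
  simp only at h1 h2
  rw [T₁_iff]
  refine ⟨x' - x * w.1 + D * y * w.2, y' - x * w.2 - y * w.1, ?_⟩
  refine Prod.ext ?_ ?_
  · simp only; linear_combination h1
  · simp only; linear_combination h2

theorem T₁_cop {D : ℤ} {M : ℕ} {v : El} (hv : T₁ M v) : Int.gcd (nm 0 D v) M = 1 := by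
  obtain ⟨x, y, rfl⟩ := T₁_iff.1 hv
  rw [← Int.isCoprime_iff_gcd_eq_one]
  refine ⟨1, -(2 * x + M * x ^ 2 + D * M * y ^ 2), ?_⟩
  unfold nm
  simp only
  ring

theorem ml_neg_left (D : ℤ) (v w : El) : ml 0 D (-v) w = - ml 0 D v w := by
  unfold ml
  refine Prod.ext ?_ ?_
  · simp only [Prod.fst_neg, Prod.snd_neg]; ring
  · simp only [Prod.fst_neg, Prod.snd_neg]; ring

theorem ml_neg_right (D : ℤ) (v w : El) : ml 0 D v (-w) = - ml 0 D v w := by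
  unfold ml
  refine Prod.ext ?_ ?_
  · simp only [Prod.fst_neg, Prod.snd_neg]; ring
  · simp only [Prod.fst_neg, Prod.snd_neg]; ring

theorem T₁_per (M : ℕ) : Per M (T₁ M) := by
  intro v w h hv
  obtain ⟨x, y, rfl⟩ := T₁_iff.1 hv
  obtain ⟨⟨a, ha⟩, ⟨b, hb⟩⟩ := h
  simp only [Prod.fst_sub, Prod.snd_sub] at ha hb
  rw [T₁_iff]
  refine ⟨x - a, y - b, Prod.ext ?_ ?_⟩
  · simp only; linarith
  · simp only; linarith

theorem T₁_one (M : ℕ) : T₁ M (1, 0) := T₁_iff.2 ⟨0, 0, by simp⟩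

theorem cls_full {D : ℤ} (A : Ang 0 D) (hrp : ∀ v, A.rp v = v) {M : ℕ} (hM : 1 ≤ M) :
    Cls A M (T₁ M) where
  M1 := hM
  per := T₁_per M
  one := T₁_one M
  mul := fun _ _ => T₁_mul
  div := fun _ _ => T₁_div
  rp := fun v _ => by rw [hrp]
  cop := fun _ => T₁_cop

theorem T₂_neg {M : ℕ} {v : El} : T₂ M (-v) ↔ T₂ M v := by
  rw [T₂_iff, T₂_iff, neg_neg]; tauto

theorem cls_sys {D : ℤ} (A : Ang 0 D) {M : ℕ} (hM : 1 ≤ M)
    (hrp : ∀ v, 0 < nm 0 D v → (dv (M : ℤ) (A.rp v - v) ∨ dv (M : ℤ) (A.rp v + v))) :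
    Cls A M (T₂ M) where
  M1 := hM
  per := by
    intro v w h hv
    rw [T₂_iff] at hv ⊢
    rcases hv with hv | hv
    · exact Or.inl (T₁_per M v w h hv)
    · right
      refine T₁_per M (-v) (-w) ?_ hv
      obtain ⟨h1, h2⟩ := h
      refine ⟨?_, ?_⟩
      · simp only [Prod.fst_sub, Prod.fst_neg] at h1 ⊢
        rw [show -v.1 - -w.1 = -(v.1 - w.1) by ring]; exact (dvd_neg).2 h1
      · simp only [Prod.snd_sub, Prod.snd_neg] at h2 ⊢
        rw [show -v.2 - -w.2 = -(v.2 - w.2) by ring]; exact (dvd_neg).2 h2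
  one := T₂_iff.2 (Or.inl (T₁_one M))
  mul := by
    intro v w hv hw
    rw [T₂_iff] at hv hw ⊢
    rcases hv with hv | hv <;> rcases hw with hw | hw
    · exact Or.inl (T₁_mul hv hw)
    · right; rw [← ml_neg_right]; exact T₁_mul hv hw
    · right; rw [← ml_neg_left]; exact T₁_mul hv hw
    · left
      have := T₁_mul (D := D) hv hw
      rw [ml_neg_left, ml_neg_right, neg_neg] at this
      exact this
  div := by
    intro v w hv hw
    rw [T₂_iff] at hv hw ⊢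
    rcases hv with hv | hv <;> rcases hw with hw | hw
    · exact Or.inl (T₁_div hv hw)
    · right; rw [← ml_neg_right] at hw; exact T₁_div hv hw
    · right
      apply T₁_div (D := D) hv
      rw [ml_neg_left, ml_neg_right, neg_neg]; exact hw
    · left
      apply T₁_div (D := D) hv
      rw [ml_neg_left]; exact hw
  rp := by
    intro v hv
    have key : ∀ x y : El, (dv (M : ℤ) (x - y) ∨ dv (M : ℤ) (x + y)) → T₂ M y → T₂ M x := by
      intro x y hxy hy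
      rcases hxy with h | h
      · rw [T₂_iff] at hy ⊢
        obtain ⟨⟨a, ha⟩, ⟨b, hb⟩⟩ := h
        simp only [Prod.fst_sub, Prod.snd_sub] at ha hb
        rcases hy with hy | hy
        · left
          refine T₁_per M y x ⟨⟨-a, ?_⟩, ⟨-b, ?_⟩⟩ hy
          · simp only [Prod.fst_sub]; linarith
          · simp only [Prod.snd_sub]; linarith
        · right
          refine T₁_per M (-y) (-x) ⟨⟨a, ?_⟩, ⟨b, ?_⟩⟩ hy
          · simp only [Prod.fst_sub, Prod.fst_neg]; linarith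
          · simp only [Prod.snd_sub, Prod.snd_neg]; linarith
      · rw [← T₂_neg (v := x)]
        rw [T₂_iff] at hy ⊢
        obtain ⟨⟨a, ha⟩, ⟨b, hb⟩⟩ := h
        simp only [Prod.fst_add, Prod.snd_add] at ha hb
        rcases hy with hy | hy
        · left
          refine T₁_per M y (-x) ⟨⟨a, ?_⟩, ⟨b, ?_⟩⟩ hy
          · simp only [Prod.fst_sub, Prod.fst_neg]; linarith
          · simp only [Prod.snd_sub, Prod.snd_neg]; linarith
        · right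
          rw [neg_neg]
          refine T₁_per M (-y) x ⟨⟨-a, ?_⟩, ⟨-b, ?_⟩⟩ hy
          · simp only [Prod.fst_sub, Prod.fst_neg]; linarith
          · simp only [Prod.snd_sub, Prod.snd_neg]; linarith
    constructor
    · intro h
      refine key v (A.rp v) ?_ h
      rcases hrp v hv with ⟨⟨a, ha⟩, ⟨b, hb⟩⟩ | ⟨⟨a, ha⟩, ⟨b, hb⟩⟩
      · left
        simp only [Prod.fst_sub, Prod.snd_sub] at ha hb
        refine ⟨⟨-a, ?_⟩, ⟨-b, ?_⟩⟩
        · simp only [Prod.fst_sub]; linarith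
        · simp only [Prod.snd_sub]; linarith
      · right
        rw [add_comm]
        exact ⟨⟨a, ha⟩, ⟨b, hb⟩⟩
    · exact key _ _ (hrp v hv)
  cop := by
    intro v hv
    rw [T₂_iff] at hv
    rcases hv with hv | hv
    · exact T₁_cop hv
    · have := T₁_cop (D := D) hv
      rw [nm_neg] at this
      exact this

/-! ### the character -/

/-- the quadratic character `(-d / n)` -/
def chi (d : ℤ) (n : ℕ) : ℤ := jacobiSym (-d) n

theorem chi_congr {d : ℤ} {R : ℕ} (hR : 4 * d ∣ (R : ℤ)) {a b : ℕ} (ha : Odd a) (hb : Odd b)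
    (hab : a ≡ b [MOD R]) : chi d a = chi d b := by
  unfold chi
  rw [jacobiSym.mod_right _ ha, jacobiSym.mod_right _ hb]
  have h1 : 4 * (-d).natAbs ∣ R := by
    have : ((4 * (-d).natAbs : ℕ) : ℤ) ∣ (R : ℤ) := by
      refine Dvd.dvd.trans ?_ hR
      push_cast
      rw [abs_neg]
      exact mul_dvd_mul_left 4 ((abs_dvd d d).2 dvd_rfl)
    exact_mod_cast this
  have h2 : a ≡ b [MOD (4 * (-d).natAbs)] := hab.of_dvd h1
  rw [h2]

/-- `χ(-1) = 1` for `d < 0` -/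
theorem chi_neg {d : ℤ} (hd : d < 0) {R : ℕ} (hR : 4 * d ∣ (R : ℤ)) {a : ℕ} (ha : Odd a)
    (h : (R : ℤ) ∣ (a : ℤ) + 1) : chi d a = 1 := by
  unfold chi
  rw [jacobiSym.mod_right _ ha]
  set n : ℕ := (-d).natAbs with hn
  have hn0 : 1 ≤ n := by omega
  have hnd : ((n : ℕ) : ℤ) = -d := by omega
  have h1 : ((4 * n : ℕ) : ℤ) ∣ (a : ℤ) + 1 := by
    refine Dvd.dvd.trans ?_ h
    refine Dvd.dvd.trans ?_ hR
    push_cast
    rw [hnd]
    exact ⟨-1, by ring⟩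
  have h2 : a % (4 * n) = 4 * n - 1 := by
    have h3 : (4 * n) ∣ a + 1 := by exact_mod_cast h1
    obtain ⟨k, hk⟩ := h3
    have hk1 : 1 ≤ k := by
      rcases Nat.eq_zero_or_pos k with h | h
      · rw [h] at hk; omega
      · exact h
    obtain ⟨k', rfl⟩ := Nat.exists_eq_add_of_le hk1
    have : a = (4 * n - 1) + 4 * n * k' := by
      have : 4 * n * (1 + k') = 4 * n + 4 * n * k' := by ring
      omega
    rw [this, Nat.add_mul_mod_self_left, Nat.mod_eq_of_lt (by omega)]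
  rw [h2, ← hnd]
  -- `4 n = 1` modulo `4 n - 1`
  have hodd : Odd (4 * n - 1) := ⟨2 * n - 1, by omega⟩
  have e1 : jacobiSym (4 * n) (4 * n - 1) = 1 := by
    have h3 : ((4 * n : ℕ) : ℤ) % ((4 * n - 1 : ℕ) : ℤ) = (1 : ℤ) % ((4 * n - 1 : ℕ) : ℤ) := by
      have : ((4 * n : ℕ) : ℤ) = 1 + ((4 * n - 1 : ℕ) : ℤ) * 1 := by
        rw [mul_one, Nat.cast_sub (by omega)]
        push_cast; ring
      rw [this, Int.add_mul_emod_self_left]
    have h4 : jacobiSym ((4 * n : ℕ) : ℤ) (4 * n - 1) = jacobiSym 1 (4 * n - 1) := by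
      rw [jacobiSym.mod_left, h3, ← jacobiSym.mod_left]
    rw [jacobiSym.one_left] at h4
    exact_mod_cast h4
  have e2 : jacobiSym (4 * n) (4 * n - 1) = jacobiSym 4 (4 * n - 1) * jacobiSym n (4 * n - 1) :=
    jacobiSym.mul_left _ _ _
  have e3 : jacobiSym 4 (4 * n - 1) = 1 := by
    have : (4 : ℤ) = 2 ^ 2 := by norm_num
    rw [this, jacobiSym.pow_left]
    have hcop : Int.gcd 2 ((4 * n - 1 : ℕ) : ℤ) = 1 := by
      rw [Int.gcd_eq_natAbs]
      exact (Nat.coprime_two_left.2 hodd)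
    exact jacobiSym.sq_one hcop
  rw [e3, one_mul] at e2
  rw [← e2, e1]

theorem four_dvd {R : ℕ} {m d : ℤ} (hdvd : 24 * d * (m ^ 2 + d) ∣ (R : ℤ)) : 4 * d ∣ (R : ℤ) :=
  Dvd.dvd.trans ⟨6 * (m ^ 2 + d), by ring⟩ hdvd

theorem two_dvd' {R : ℕ} {m d : ℤ} (hdvd : 24 * d * (m ^ 2 + d) ∣ (R : ℤ)) : 2 ∣ R := by
  have : (2 : ℤ) ∣ (R : ℤ) := Dvd.dvd.trans ⟨12 * d * (m ^ 2 + d), by ring⟩ hdvd
  exact_mod_cast this

theorem odd_abs {R : ℕ} (h2 : 2 ∣ R) {M : ℕ} (hRM : R ∣ M) (x : ℤ) :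
    Odd (1 + (M : ℤ) * x).natAbs := by
  rw [Int.natAbs_odd]
  have : Even ((M : ℤ) * x) := by
    have h3 : (2 : ℤ) ∣ (M : ℤ) := by exact_mod_cast h2.trans hRM
    exact (even_iff_two_dvd.2 h3).mul_right x
  rw [Int.odd_add]
  exact iff_of_true odd_one this

theorem T₁_unit {R M : ℕ} (hRM : R ∣ M) {v : El} (hv : T₁ M v) : IsCoprime v.1 (R : ℤ) := by
  obtain ⟨x, y, rfl⟩ := T₁_iff.1 hv
  obtain ⟨k, rfl⟩ := hRM
  refine ⟨1, -((k : ℤ) * x), ?_⟩
  push_cast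
  ring

theorem chi_T₁ {R M : ℕ} {m d : ℤ} (hdvd : 24 * d * (m ^ 2 + d) ∣ (R : ℤ)) (hRM : R ∣ M)
    {v w : El} (hv : T₁ M v) (hw : T₁ M w) (hs : 0 < v.1 * w.1) :
    chi d v.1.natAbs = chi d w.1.natAbs := by
  obtain ⟨x, y, rfl⟩ := T₁_iff.1 hv
  obtain ⟨x', y', rfl⟩ := T₁_iff.1 hw
  simp only at hs ⊢
  apply chi_congr (four_dvd hdvd) (odd_abs (two_dvd' hdvd) hRM x)
    (odd_abs (two_dvd' hdvd) hRM x')
  rw [Nat.modEq_iff_dvd]
  obtain ⟨k, rfl⟩ := hRM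
  rcases pos_and_pos_or_neg_and_neg_of_mul_pos hs with ⟨h1, h2⟩ | ⟨h1, h2⟩
  · rw [Int.natAbs_of_nonneg h1.le, Int.natAbs_of_nonneg h2.le]
    exact ⟨k * x' - k * x, by push_cast; ring⟩
  · rw [Int.ofNat_natAbs_of_nonpos h1.le, Int.ofNat_natAbs_of_nonpos h2.le]
    exact ⟨k * x - k * x', by push_cast; ring⟩

theorem chi_T₂ {R M : ℕ} {m d : ℤ} (hd : d < 0) (hdvd : 24 * d * (m ^ 2 + d) ∣ (R : ℤ))
    (hRM : R ∣ M) {v : El} (hv : T₂ M v) : chi d v.1.natAbs = 1 := by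
  have key : ∀ x : ℤ, chi d (1 + (M : ℤ) * x).natAbs = 1 := by
    intro x
    have hodd := odd_abs (two_dvd' hdvd) hRM x
    obtain ⟨k, rfl⟩ := hRM
    rcases le_or_gt 0 (1 + ((R * k : ℕ) : ℤ) * x) with h | h
    · have h1 : (1 + ((R * k : ℕ) : ℤ) * x).natAbs ≡ 1 [MOD R] := by
        rw [Nat.modEq_iff_dvd, Int.natAbs_of_nonneg h]
        exact ⟨-(k * x), by push_cast; ring⟩
      rw [chi_congr (four_dvd hdvd) hodd odd_one h1]
      unfold chi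
      exact jacobiSym.one_right _
    · apply chi_neg hd (four_dvd hdvd) hodd
      rw [Int.ofNat_natAbs_of_nonpos h.le]
      exact ⟨-(k * x), by push_cast; ring⟩
  rw [T₂_iff] at hv
  rcases hv with hv | hv
  · obtain ⟨x, y, rfl⟩ := T₁_iff.1 hv
    exact key x
  · obtain ⟨x, y, hxy⟩ := T₁_iff.1 hv
    have : v.1 = -(1 + M * x) := by
      have := congrArg Prod.fst hxy
      simp only [Prod.fst_neg] at this
      linarith
    rw [this, Int.natAbs_neg]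
    exact key x

theorem T₂_unit {R M : ℕ} (hRM : R ∣ M) {v : El} (hv : T₂ M v) : IsCoprime v.1 (R : ℤ) := by
  rw [T₂_iff] at hv
  rcases hv with hv | hv
  · exact T₁_unit hRM hv
  · have := T₁_unit hRM hv
    simp only [Prod.fst_neg] at this
    exact (IsCoprime.neg_left_iff _ _).1 this

/-! ### the end -/

theorem gp_pos {b₀ D : ℤ} (ha : 0 < b₀ ^ 2 + D) {t : ℕ} (ht : 2 * b₀.natAbs + 1 ≤ t) :
    0 < gp b₀ D t := by
  have h1 : (2 : ℤ) * |b₀| + 1 ≤ t := by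
    have : ((2 * b₀.natAbs + 1 : ℕ) : ℤ) ≤ ((t : ℕ) : ℤ) := by exact_mod_cast ht
    push_cast at this
    exact this
  have h2 := neg_abs_le b₀
  have h3 := abs_nonneg b₀
  unfold gp
  have h4 : (t : ℤ) ^ 2 ≤ (b₀ ^ 2 + D) * (t : ℤ) ^ 2 := by nlinarith [sq_nonneg (t : ℤ)]
  nlinarith

theorem aq_end {R : ℕ} {m d : ℤ} (hR : 0 < R) (hdvd : 24 * d * (m ^ 2 + d) ∣ (R : ℤ))
    (hmd : 0 < m ^ 2 + d) (hns : ¬ IsSquare (-d)) {b₀ D : ℤ} (hb : b₀ = R * m)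
    (hDd : D = (R : ℤ) ^ 2 * d)
    (hI : ∀ C H δ : ℝ, 0 < C → 0 < H → 0 < δ → ∃ (c : ℝ) (K : ℕ) (Y₀ : ℝ), 0 < c ∧
      ∀ h : ℕ → ℤ, Sgn h → ∀ Y : ℝ, Y₀ ≤ Y → ∀ σ : ℤ, (σ = 1 ∨ σ = -1) →
        cnt (fun n : ℕ => b₀ ^ 2 + D ∣ (n : ℤ) - b₀ ∧ h ((n : ℤ) ^ 2 + D).natAbs = σ) (K * Y) <
          c * Y → PairsAt D R (chi d) h C H δ Y)
    {h : ℕ → ℤ} (hh : Sgn h) : ∃ c x₀ : ℝ, 0 < c ∧ ∀ x : ℝ, x₀ ≤ x →
      c * x ≤ cnt (fun t : ℕ => h (gp b₀ D t).natAbs = 1) x := by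
  have hRz : (0 : ℤ) < R := by exact_mod_cast hR
  have ha : 0 < b₀ ^ 2 + D := by
    rw [hb, hDd]
    have : ((R : ℤ) * m) ^ 2 + (R : ℤ) ^ 2 * d = (R : ℤ) ^ 2 * (m ^ 2 + d) := by ring
    rw [this]; positivity
  have hD : ¬ IsSquare (-D) := by
    rintro ⟨s, hs⟩
    apply hns
    have h1 : (R : ℤ) ^ 2 * (-d) = s ^ 2 := by rw [sq s, ← hs, hDd]; ring
    have h2 : (R : ℤ) ^ 2 ∣ s ^ 2 := ⟨_, h1.symm⟩
    rw [Int.pow_dvd_pow_iff two_ne_zero] at h2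
    obtain ⟨t, rfl⟩ := h2
    refine ⟨t, ?_⟩
    have h3 : (R : ℤ) ^ 2 * (-d) = (R : ℤ) ^ 2 * (t * t) := by rw [h1]; ring
    exact mul_left_cancel₀ (pow_ne_zero 2 hRz.ne') h3
  have hdsc : dsc 0 D = 4 * (-D) := by unfold dsc; ring
  have hs : ¬ IsSquare (dsc 0 D) := by
    rw [hdsc]
    rintro ⟨s, hs⟩
    apply hD
    have h2 : (2 : ℤ) ^ 2 ∣ s ^ 2 := ⟨-D, by rw [sq s, ← hs]; norm_num⟩
    rw [Int.pow_dvd_pow_iff two_ne_zero] at h2
    obtain ⟨t, rfl⟩ := h2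
    exact ⟨t, by linarith⟩
  obtain ⟨M₀, hM₀, hPT⟩ := part_two hs
  set M := M₀ * R with hM
  have hM1 : 1 ≤ M := Nat.mul_pos hM₀ hR
  have hRM : R ∣ M := Dvd.intro_left _ rfl
  have hPT' := hPT M hM1 (dvd_mul_right _ _)
  refine end_density (t₁ := 2 * b₀.natAbs + 1) ha hD hM1 hI ?_ hh
  intro t ht htM
  have hgp := gp_pos ha ht
  -- the element
  set s₀ : El := (1 + (t : ℤ) * b₀, (t : ℤ)) with hs₀
  have hs1 : T₁ M s₀ := by
    rw [T₁_iff]
    obtain ⟨k, hk⟩ := htM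
    refine ⟨k * b₀, k, ?_⟩
    rw [hs₀, hk]
    push_cast
    refine Prod.ext ?_ rfl
    simp only; ring
  have hsp : Pm s₀ := Int.isCoprime_iff_gcd_eq_one.1 (zt_cop b₀ t)
  have hsn : nm 0 D s₀ = gp b₀ D t := gp_nm b₀ D t
  have hsn0 : 0 < nm 0 D s₀ := by rw [hsn]; exact hgp
  have hd0 : d ≠ 0 := by
    rintro rfl
    exact hns ⟨0, by simp⟩
  -- the common part
  have key : ∀ (A : Ang 0 D) (S : Sys 0 D) (μ : ℕ) (T : El → Prop), Cov A S μ →
      (∀ v, S.wd v → 0 ≤ v.2) → Cls A M T → T s₀ → (∀ v, T v → IsCoprime v.1 (R : ℤ)) →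
      (∀ v w, T v → T w → 0 < v.1 * w.1 → chi d v.1.natAbs = chi d w.1.natAbs) →
      ∃ C H δ Y₁ : ℝ, 0 < C ∧ 0 < H ∧ 0 < δ ∧ ∀ h : ℕ → ℤ, Sgn h → ∀ Y : ℝ, Y₁ ≤ Y →
        PairsAt D R (chi d) h C H δ Y → h (gp b₀ D t).natAbs = 1 := by
    intro A S μ T hcov hS hT hTs hcop hχ
    obtain ⟨ε, H, N₀, hε, hH, hlast⟩ := hPT' A T hT s₀ hTs hsp hsn0
    obtain ⟨C, H', δ, Y₁, hC, hH', hδ, hloc⟩ := locH_of_pairs (χ := chi d) hcov hS hT hcop hχ hε
      (show 1 ≤ H by linarith)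
    refine ⟨C, H', δ, max N₀ Y₁, hC, hH', hδ, ?_⟩
    intro h hh Y hY hP
    obtain ⟨F, hF⟩ := hloc h hh Y (le_trans (le_max_right _ _) hY) hP
    rcases hh.pm (gp b₀ D t).natAbs (Int.natAbs_pos.2 hgp.ne') with h1 | h1
    · exact h1
    · exfalso
      refine hlast Y (le_trans (le_max_left _ _) hY) h hh ?_ F hF
      unfold gg
      rw [hsn]; exact h1
  rcases lt_or_gt_of_ne hd0 with hd | hd
  · -- real quadratic
    have hDneg : D < 0 := by rw [hDd]; exact mul_neg_of_pos_of_neg (by positivity) hd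
    obtain ⟨S, hS⟩ := sys_unit hs (by rw [hdsc]; linarith) M hM1
    obtain ⟨A, _, _, hwd, hrp, hu⟩ := ang_sys S
    refine key A S 1 (T₂ M) ⟨le_rfl, fun v hv => Or.inl ⟨(hwd v).1 hv, ?_⟩⟩ ?_
      (cls_sys A hM1 (fun v hv => by rw [hrp]; exact hS v hv)) (T₂_iff.2 (Or.inl hs1))
      (fun v hv => T₂_unit hRM hv)
      (fun v w hv hw _ => by rw [chi_T₂ hd hdvd hRM hv, chi_T₂ hd hdvd hRM hw])
    · rw [hu]; simp
    · intro v hv
      rcases hv with ⟨h1, _⟩ | ⟨h1, _⟩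
      · exact h1.ge
      · exact h1.le
  · -- imaginary quadratic
    have hDpos : 0 < D := by rw [hDd]; positivity
    have hdneg : dsc 0 D < 0 := by rw [hdsc]; linarith
    obtain ⟨S⟩ := sys_neg 0 D hdneg
    obtain ⟨A, _, _, hwd, hrp, hu1, hu2⟩ := ang_full S hdneg
    refine key A S 2 (T₁ M) ⟨by norm_num, fun v hv => ?_⟩ ?_ (cls_full A hrp hM1) hs1
      (fun v hv => T₁_unit hRM hv) (fun v w hv hw hvw => chi_T₁ hdvd hRM hv hw hvw)
    · have hv0 := (hwd v).1 hv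
      have hor : S.wd v ∨ S.wd (-v) := by
        have h0 : v.1 ≠ 0 ∨ v.2 ≠ 0 := by
          by_contra hc
          push Not at hc
          exact hv0 (Prod.ext hc.1 hc.2)
        rcases lt_trichotomy v.2 0 with h1 | h1 | h1
        · right; right
          exact ⟨by simp only [Prod.snd_neg]; omega, Or.inl hdneg⟩
        · rcases lt_trichotomy v.1 0 with h2 | h2 | h2
          · right; left
            simp only [Prod.fst_neg, Prod.snd_neg]; omega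
          · exfalso; omega
          · left; left; exact ⟨h1, h2⟩
        · left; right; exact ⟨h1, Or.inl hdneg⟩
      rcases hor with h1 | h1
      · left
        exact ⟨h1, by rw [hu1 v h1]; norm_num⟩
      · right
        exact ⟨by norm_num, h1, by rw [hu2 v h1]; norm_num⟩
    · intro v hv
      rcases hv with ⟨h1, _⟩ | ⟨h1, _⟩
      · exact h1.ge
      · exact h1.le

end Pool.Agent.AQE
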